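import Mathlib
import Pool.Agent.N178.BL.Defs

/-!
# The Chow–Künneth projectors of complex abelian varieties: known properties
-/

namespace Pool.Agent.N178.MU

open Module Pool.Agent.Y90 Pool.Agent.R915 Pool.Agent.N178.BL
open Pool.Agent.W546.GHC (complexify typeForms)

/-- Known properties of the Chow–Künneth projectors of complex abelian varieties. -/
structure Projectors (C : ChowTheory) where
  /-- Deninger–Murre: the projector to `h_n(X)`; it is zero for `n > 2 dim X` -/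
  pr : ∀ X, ℕ → C.Co X X
  deg : ∀ X n, C.IsDeg 0 (pr X n)
  kunneth : ∀ X n ω, C.pb (pr X n) ω n = ω n ∧ ∀ l, l ≠ n → C.pb (pr X n) ω l = 0
  /-- correspondences of degree `r` change the degree of cohomology classes by `-2 r` -/
  graded : ∀ {X Y} r (f : C.Co X Y), C.IsDeg r f → ∀ (ω η : HT Y) (l : ℕ),
    (∀ a : ℕ, (a : ℤ) = l + 2 * r → ω a = η a) → C.pb f ω l = C.pb f η l
  /-- Beauville, Künnemann: the correspondences `g` of degree `r` from `h_n(X)` to `h_m(Y)` are
  cycles of dimension `n + r` on `h_(n + m)(X × Y)`, which are cycles of codimension `m - r` on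
  `h^(n + m)(X × Y)`; they are zero if `m - r ≤ 1` and `n + m > 2 (m - r)` -/
  beauville : ∀ {X Y} (n m : ℕ) (r : ℤ) (g : C.Co X Y), C.IsDeg r g → m ≤ r + 1 →
    (m : ℤ) < n + 2 * r → C.o (pr Y m) (C.o g (pr X n)) = 0
  /-- for `n + m = 2 (m - r)` they are divisors on `h^2(X × Y)`, so they are zero if they are
  homologically trivial -/
  divisors : ∀ {X Y} (n m : ℕ) (r : ℤ) (g : C.Co X Y), C.IsDeg r g → m ≤ r + 1 →
    (m : ℤ) = n + 2 * r → (∀ ω, C.pb g ω = 0) → C.o (pr Y m) (C.o g (pr X n)) = 0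

variable {C : ChowTheory} {X : AV}

/-- `P` is a Chow–Künneth decomposition `M = ⊕ M_m` of the Chow motive `M = (X, p)`, where
`M_m = (X, P m)`. -/
def IsChowKunneth (p : C.Co X X) (P : ℕ → C.Co X X) : Prop :=
  (∀ m, C.IsMotive (P m)) ∧ (∀ m l, m ≠ l → C.o (P m) (P l) = 0) ∧
    (∃ N, p = ∑ m ∈ Finset.range N, P m ∧ ∀ m, N ≤ m → P m = 0) ∧
    ∀ m l, l ≠ m → ∀ ω, C.pb (P m) ω l = 0

/-- The Hodge number `h^(s, t)` of the Chow motive `(X, p)` is zero. -/
def HodgeZero (p : C.Co X X) (s t : ℕ) : Prop :=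
  complexify X.per (C.img p (s + t)) ⊓ typeForms X.T (s + t) s t = ⊥

/-- The Hodge level of the Chow motive `(X, p)` is at most two. -/
def LevelTwo (p : C.Co X X) : Prop := ∀ s t : ℕ, 3 ≤ |(s : ℤ) - t| → HodgeZero p s t

/-- Murre's filtration: `z` belongs to `F^ν CH_i(M) = ⊕_(m ≥ 2 i + ν) CH_i(M_m)`. The cycles on `X`
are the correspondences from the point `O` to `X`. -/
def F {O : AV} (p : C.Co X X) (P : ℕ → C.Co X X) (i : ℤ) (ν : ℕ) (z : C.Co O X) : Prop :=
  C.IsDeg i z ∧ C.o p z = z ∧ ∀ m : ℕ, m < 2 * i + ν → C.o (P m) z = 0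

end Pool.Agent.N178.MU
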