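import Mathlib
import Pool.Agent.N178.MU.Defs

/-!
# The complex Abel–Jacobi map and algebraic equivalence: known properties
-/

namespace Pool.Agent.N178.MU

open Module Pool.Agent.Y90 Pool.Agent.R915 Pool.Agent.N178.BL

/-- Known properties of the complex Abel–Jacobi map and of algebraic equivalence on complex abelian
varieties, with rational coefficients. The cycles on `X` are the correspondences from the point `O` to
`X`. -/
structure AbelJacobi {C : ChowTheory} (K : Projectors C) (O : AV) where
  /-- the cycle is homologically trivial and its Abel–Jacobi image is torsion -/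
  Triv : ∀ {X}, C.Co O X → Prop
  /-- the cycle is algebraically equivalent to zero -/
  Alg : ∀ {X}, C.Co O X → Prop
  triv_o : ∀ {X Y} (f : C.Co X Y) (z : C.Co O X), Triv z → Triv (C.o f z)
  alg_o : ∀ {X Y} (f : C.Co X Y) (z : C.Co O X), Alg z → Alg (C.o f z)
  alg_sub : ∀ {X} (z z' : C.Co O X), Alg z → Alg z' → Alg (z - z')
  /-- zero-cycles of degree zero are algebraically equivalent to zero -/
  alg_zero : ∀ {X} (z : C.Co O X), C.IsDeg 0 z → (∀ ω, C.pb z ω = 0) → Alg z
  /-- the group `CH_0(h_1(Y))` is the group of the points of `Y`, with rational coefficients -/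
  albanese : ∀ {Y} (z : C.Co O Y), C.IsDeg 0 z → Triv z → C.o (K.pr Y 1) z = 0

end Pool.Agent.N178.MU
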