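import Mathlib
import Pool.Agent.N178.MU.Defs
import Pool.Agent.N178.AJ.Main

/-!
# Chow motives of small Hodge level: the proofs
-/

set_option linter.unusedSectionVars false

namespace Pool.Agent.N178.MU

open Module Pool.Agent.Y90 Pool.Agent.R915 Pool.Agent.N178.BL Pool.Agent.N178.GB
open Pool.Agent.N178.AJ (FacP FacP_deg IxP RgP exists_fixP neg_pb)
open Pool.Agent.W546.GHC (IsHodgeSubstructure LevelLE complexify typeForms)
open Pool.Agent.N178.HX (Cor GHC)

noncomputable section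

variable {C : ChowTheory} (K : Projectors C) {X Y O : AV}

/-! ### Homologically equal projectors -/

/-- An idempotent factors through each homologically equivalent correspondence. -/
theorem through {P T : C.Co X X} (hP : C.IsMotive P) (hT : C.IsDeg 0 T)
    (h : ∀ ω, C.pb T ω = C.pb P ω) :
    ∃ A B : C.Co X X, C.IsDeg 0 A ∧ C.IsDeg 0 B ∧ P = C.o A (C.o T B) := by
  obtain ⟨hPd, hPP⟩ := hP
  obtain ⟨μ, hμ⟩ : ∃ μ, μ = P - C.o P (C.o T P) := ⟨_, rfl⟩
  have hPTP : C.IsDeg 0 (C.o P (C.o T P)) := by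
    have h1 := C.deg_o _ _ (C.deg_o _ _ hPd hT) hPd
    rwa [zero_add, zero_add] at h1
  have hμd : C.IsDeg 0 μ := by
    rw [hμ]
    exact C.deg_sub _ _ hPd hPTP
  have hpp : ∀ ω, C.pb P (C.pb P ω) = C.pb P ω := fun ω => by rw [← C.pb_o, hPP]
  obtain ⟨N, hN⟩ := C.nilpotent μ hμd fun ω => by
    rw [hμ, pb_sub, C.pb_o (C.o T P) P, C.pb_o P T, h, hpp, hpp, sub_self]
  have key : ∀ k : ℕ, ∃ B : C.Co X X, C.IsDeg 0 B ∧
      P = C.o ((fun g : C.Co X X => C.o μ g)^[k] (C.one X)) P + C.o P (C.o T B) := by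
    intro k
    induction k with
    | zero =>
      refine ⟨0, deg_zero hPd, ?_⟩
      rw [Function.iterate_zero, id_eq, C.one_o, o_zero, o_zero, add_zero]
    | succ k ih =>
      obtain ⟨B, hB, hk⟩ := ih
      have hPTB : C.IsDeg 0 (C.o P (C.o T B)) := by
        have h1 := C.deg_o _ _ (C.deg_o _ _ hB hT) hPd
        rwa [zero_add, zero_add] at h1
      refine ⟨P + (B - C.o P (C.o T B)), deg_add hPd (C.deg_sub _ _ hB hPTB), ?_⟩
      rw [Function.iterate_succ_apply', ← C.assoc]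
      -- `P = μ P + P T P`
      have h1 : P = C.o μ P + C.o P (C.o T P) := by
        have h2 := C.add_o μ (C.o P (C.o T P)) P
        rw [hμ, sub_add_cancel, hPP, ← C.assoc P (C.o T P) P, ← C.assoc P P T, hPP] at h2
        rw [hμ]
        exact h2
      -- `μ P = μ μ^k P + μ P T B`
      have h3 : C.o μ P = C.o μ (C.o ((fun g : C.Co X X => C.o μ g)^[k] (C.one X)) P) +
          C.o μ (C.o P (C.o T B)) := by
        rw [← C.o_add, ← hk]
      -- `μ P T B = P T B - P T P P T B`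
      have h4 : C.o μ (C.o P (C.o T B)) = C.o P (C.o T (B - C.o P (C.o T B))) := by
        have h5 := C.add_o μ (C.o P (C.o T P)) (C.o P (C.o T B))
        rw [hμ, sub_add_cancel, C.assoc (C.o T B) P P, hPP] at h5
        have h6 : C.o (C.o P (C.o T P)) (C.o P (C.o T B)) = C.o P (C.o T (C.o P (C.o T B))) := by
          rw [← C.assoc _ (C.o T P) P, ← C.assoc _ P T, C.assoc (C.o T B) P P, hPP]
        rw [h6] at h5
        have h7 := C.o_add T (B - C.o P (C.o T B)) (C.o P (C.o T B))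
        rw [sub_add_cancel] at h7
        have h8 := C.o_add P (C.o T (B - C.o P (C.o T B))) (C.o T (C.o P (C.o T B)))
        rw [← h7] at h8
        rw [hμ]
        exact add_right_cancel (h5.symm.trans h8)
      have h9 := C.o_add T P (B - C.o P (C.o T B))
      have h10 := C.o_add P (C.o T P) (C.o T (B - C.o P (C.o T B)))
      rw [h9, h10, ← h4]
      rw [h3] at h1
      nth_rw 1 [h1]
      abel
  obtain ⟨B, hB, h1⟩ := key N
  rw [hN, zero_o, zero_add] at h1
  exact ⟨P, B, hPd, hB, h1⟩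

/-! ### The parts of weight `n + 2 k` and level `n` -/

/-- The compositions through `h_n(Y)`. -/
def Wt (X : AV) (n k : ℕ) : AddSubgroup (C.Co X X) :=
  AddSubgroup.closure {q | ∃ (Y : AV) (Γ : C.Co X Y) (κ : C.Co Y X),
    C.IsDeg (-(k : ℤ)) Γ ∧ C.IsDeg k κ ∧ q = C.o κ (C.o (K.pr Y n) Γ)}

theorem Wt_deg {n k : ℕ} {q : C.Co X X} (hq : q ∈ Wt K X n k) : C.IsDeg 0 q := by
  unfold Wt at hq
  induction hq using AddSubgroup.closure_induction with
  | mem q hq =>
    obtain ⟨Y, Γ, κ, h1, h2, rfl⟩ := hq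
    have h3 := C.deg_o _ κ (C.deg_o Γ _ h1 (K.deg Y n)) h2
    rwa [add_zero, neg_add_cancel] at h3
  | zero => exact deg_zero (C.deg_one X)
  | add a b _ _ ha hb => exact deg_add ha hb
  | neg a _ ha => exact deg_neg' ha

/-- The correspondences of degree `-k` which factor through `h_n(Y)`. -/
def PrP (X : AV) (n k : ℕ) (Y : AV) (r : ℤ) (Γ : C.Co X Y) : Prop :=
  r = k ∧ ∃ Γ₀ : C.Co X Y, C.IsDeg (-(k : ℤ)) Γ₀ ∧ Γ = C.o (K.pr Y n) Γ₀

theorem PrP_o {n k : ℕ} (Y : AV) (r : ℤ) (Γ : C.Co X Y) (e : C.Co X X) (he : C.IsDeg 0 e)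
    (h : PrP K X n k Y r Γ) : PrP K X n k Y r (C.o Γ e) := by
  obtain ⟨hr, Γ₀, h1, rfl⟩ := h
  refine ⟨hr, C.o Γ₀ e, ?_, (C.assoc e Γ₀ _).symm⟩
  have h4 := C.deg_o e Γ₀ he h1
  rwa [zero_add] at h4

theorem mem_Wt {n k : ℕ} {e q : C.Co X X} (he : C.IsDeg 0 e) (hq : q ∈ FacP X (PrP K X n k)) :
    C.o e q ∈ Wt K X n k := by
  unfold FacP at hq
  induction hq using AddSubgroup.closure_induction with
  | mem q hq =>
    obtain ⟨Y, r, Γ, κ, ⟨hr, Γ₀, h5, rfl⟩, h2, h3, rfl⟩ := hq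
    subst hr
    refine AddSubgroup.subset_closure ⟨Y, Γ₀, C.o e κ, h5, ?_, C.assoc _ _ _⟩
    have h4 := C.deg_o κ e h3 he
    rwa [add_zero] at h4
  | zero => rw [o_zero]; exact AddSubgroup.zero_mem _
  | add a b _ _ ha hb => rw [C.o_add]; exact AddSubgroup.add_mem _ ha hb
  | neg a _ ha => rw [o_neg]; exact AddSubgroup.neg_mem _ ha

/-- A correspondence which is concentrated in degree `n + 2 k`, with image of level at most `n`. -/
theorem exists_Wt (hG : GHC C.alg X) {e : C.Co X X} (he : C.IsDeg 0 e) {n k m : ℕ}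
    (hm : m = n + 2 * k) (hc : ∀ l, l ≠ m → ∀ ω, C.pb e ω l = 0)
    (hL : ∀ s t : ℕ, s + t = m → (n : ℤ) < |(s : ℤ) - t| →
      complexify X.per (C.img e m) ⊓ typeForms X.T m s t = ⊥) :
    ∃ T ∈ Wt K X n k, ∀ ω, C.pb T ω = C.pb e ω := by
  subst hm
  have hV := C.hodge e he (n + 2 * k)
  have hL' : LevelLE X.per (C.img e (n + 2 * k)) n := by
    intro s t hst hne
    by_contra h
    exact hne (hL s t hst (not_le.1 h))
  obtain ⟨q, hq, h1⟩ := exists_fixP (P := PrP K X n k) (PrP_o K)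
    (U := (C.img e (n + 2 * k)).map (inc X (n + 2 * k))) ((finite_img _).map _) (by
      rintro _ ⟨v, hv, rfl⟩
      have h1 := hG n k _ hV hL' hv
      unfold Cor at h1
      clear hv
      induction h1 using Submodule.span_induction with
      | mem f hf =>
        obtain ⟨Y, Q, a, b, τ, y, ha, hb, hab, hτ, hfx⟩ := hf
        obtain ⟨Γ, hΓ, h2⟩ := C.classes a b ha hb hab n (n + 2 * k) k rfl τ hτ
        obtain ⟨ω, hω, hω'⟩ := h2 y f hfx
        have hd : C.IsDeg (-(k : ℤ)) (C.o (K.pr Y n) Γ) := by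
          have h4 := C.deg_o Γ _ hΓ (K.deg Y n)
          rwa [add_zero] at h4
        have h3 : inc X (n + 2 * k) f ∈
            RgP (⟨Y, k, C.o (K.pr Y n) Γ, ⟨rfl, Γ, hΓ, rfl⟩, hd⟩ : IxP (PrP K X n k)) := by
          refine ⟨ω, ?_⟩
          change C.pb (C.o (K.pr Y n) Γ) ω = _
          rw [C.pb_o]
          refine eq_inc ?_ fun l hl => ?_
          · rw [← hω]
            refine K.graded (-k) Γ hΓ _ _ _ fun a ha => ?_
            obtain rfl : a = n := by
              push_cast at ha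
              omega
            exact (K.kunneth Y _ ω).1
          · have h5 : C.pb Γ (C.pb (K.pr Y n) ω) l = C.pb Γ 0 l := by
              refine K.graded (-k) Γ hΓ _ _ _ fun a ha => ?_
              exact (K.kunneth Y _ ω).2 a (by omega)
            rw [h5, pb_zero]
            rfl
        exact Submodule.mem_iSup_of_mem _ h3
      | zero => rw [map_zero]; exact Submodule.zero_mem _
      | add f g _ _ hf hg => rw [map_add]; exact Submodule.add_mem _ hf hg
      | smul r f _ hf => rw [map_smul]; exact Submodule.smul_mem _ _ hf)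
  refine ⟨C.o e q, mem_Wt K he hq, fun ω => ?_⟩
  rw [C.pb_o]
  have h2 : C.pb e ω = inc X _ (C.pb e ω (n + 2 * k)) := eq_inc rfl fun l hl => hc l hl ω
  rw [h2]
  exact h1 _ ⟨_, Submodule.subset_span ⟨ω, rfl⟩, rfl⟩

/-! ### Cycles -/

/-- The projector to `h_0` of a point is the identity. -/
theorem pr_point (hO : finrank ℚ O.H = 0) : K.pr O 0 = C.one O := by
  refine sub_eq_zero.1 (C.point _ hO hO fun ω => ?_)
  rw [pb_sub, C.pb_one, sub_eq_zero]
  funext m
  rcases Nat.eq_zero_or_pos m with rfl | hm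
  · exact (K.kunneth O 0 ω).1
  · rw [(K.kunneth O 0 ω).2 m hm.ne', form_zero (by omega) (ω m)]

/-- The cycles which are killed by the projectors. -/
theorem pr_zero (hO : finrank ℚ O.H = 0) {n : ℕ} {j : ℤ} {z : C.Co O Y} (hz : C.IsDeg j z)
    (h1 : n ≤ j + 1) (h2 : (n : ℤ) ≤ 2 * j) (h0 : (n : ℤ) = 2 * j → ∀ ω, C.pb z ω = 0) :
    C.o (K.pr Y n) z = 0 := by
  have h3 : C.o (K.pr Y n) (C.o z (K.pr O 0)) = 0 := by
    rcases h2.lt_or_eq with h2 | h2
    · exact K.beauville 0 n j z hz h1 (by push_cast; omega)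
    · exact K.divisors 0 n j z hz h1 (by push_cast; omega) (h0 h2)
  rwa [pr_point K hO, C.o_one] at h3

theorem Wt_zero (hO : finrank ℚ O.H = 0) {n k : ℕ} {T : C.Co X X} (hT : T ∈ Wt K X n k) {i : ℤ}
    {z : C.Co O X} (hz : C.IsDeg i z) (h1 : (n : ℤ) + k ≤ i + 1) (h2 : (n : ℤ) + 2 * k ≤ 2 * i)
    (h0 : (n : ℤ) + 2 * k = 2 * i → ∀ ω, C.pb z ω = 0) : C.o T z = 0 := by
  unfold Wt at hT
  induction hT using AddSubgroup.closure_induction with
  | mem q hq =>
    obtain ⟨Y, Γ, κ, h3, h4, rfl⟩ := hq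
    have hd := C.deg_o z Γ hz h3
    rw [← C.assoc, ← C.assoc, pr_zero K hO hd (by omega) (by omega) (fun h ω => by
      rw [C.pb_o, h0 (by omega)]), o_zero]
  | zero => exact zero_o _
  | add a b _ _ ha hb => rw [C.add_o, ha, hb, add_zero]
  | neg a _ ha => rw [neg_o, ha, neg_zero]

/-- There are no cycles of large codimension. -/
theorem Wt_neg (hO : finrank ℚ O.H = 0) {n k : ℕ} {T : C.Co X X} (hT : T ∈ Wt K X n k) {i : ℤ}
    {z : C.Co O X} (hz : C.IsDeg i z) (h1 : i < k) : C.o T z = 0 := by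
  unfold Wt at hT
  induction hT using AddSubgroup.closure_induction with
  | mem q hq =>
    obtain ⟨Y, Γ, κ, h3, h4, rfl⟩ := hq
    have hd := C.deg_o z Γ hz h3
    rw [← C.assoc, ← C.assoc, C.deg_neg _ hd (by rw [hO]; push_cast; omega), o_zero, o_zero]
  | zero => exact zero_o _
  | add a b _ _ ha hb => rw [C.add_o, ha, hb, add_zero]
  | neg a _ ha => rw [neg_o, ha, neg_zero]

/-- Correspondences which decrease the weight. -/
theorem Wt_Wt {n k n' k' : ℕ} {S : C.Co Y Y} {T : C.Co X X} (hS : S ∈ Wt K Y n' k')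
    (hT : T ∈ Wt K X n k) {r : ℤ} {f : C.Co X Y} (hf : C.IsDeg r f)
    (h1 : (n' : ℤ) + k' ≤ k + r + 1) (h2 : (n' : ℤ) + 2 * k' < n + 2 * k + 2 * r) :
    C.o S (C.o f T) = 0 := by
  unfold Wt at hS hT
  induction hS using AddSubgroup.closure_induction with
  | mem S hS =>
    obtain ⟨Y', Γ', κ', h3', h4', rfl⟩ := hS
    induction hT using AddSubgroup.closure_induction with
    | mem T hT =>
      obtain ⟨Y, Γ, κ, h3, h4, rfl⟩ := hT
      have hg : C.IsDeg ((k : ℤ) + r + -(k' : ℤ)) (C.o Γ' (C.o f κ)) :=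
        C.deg_o _ _ (C.deg_o _ _ h4 hf) h3'
      have h5 := K.beauville n n' _ _ hg (by omega) (by omega)
      have h6 : C.o (C.o κ' (C.o (K.pr Y' n') Γ')) (C.o f (C.o κ (C.o (K.pr Y n) Γ))) =
          C.o κ' (C.o (C.o (K.pr Y' n') (C.o (C.o Γ' (C.o f κ)) (K.pr Y n))) Γ) := by
        simp only [← C.assoc]
      rw [h6, h5, zero_o, o_zero]
    | zero => rw [o_zero, o_zero]
    | add a b _ _ ha hb => rw [C.o_add, C.o_add, ha, hb, add_zero]
    | neg a _ ha => rw [o_neg, o_neg, ha, neg_zero]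
  | zero => exact zero_o _
  | add a b _ _ ha hb => rw [C.add_o, ha, hb, add_zero]
  | neg a _ ha => rw [neg_o, ha, neg_zero]

end

end Pool.Agent.N178.MU
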