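import Mathlib
import Pool.Agent.N178.MU.Main

/-!
# Murre's conjectures for Chow motives of small Hodge level: the proofs
-/

set_option linter.unusedSectionVars false

namespace Pool.Agent.N178.MU

open Module Pool.Agent.Y90 Pool.Agent.R915 Pool.Agent.N178.BL Pool.Agent.N178.GB
open Pool.Agent.N178.AJ (FacP FacP_deg IxP RgP exists_fixP neg_pb)
open Pool.Agent.W546.GHC (IsHodgeSubstructure LevelLE complexify typeForms)
open Pool.Agent.N178.HX (Cor GHC)

noncomputable section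

variable {C : ChowTheory} (K : Projectors C) {X Y O : AV} {p : C.Co X X} {P P' : ℕ → C.Co X X}

theorem pb_sum {ι : Type} (s : Finset ι) (f : ι → C.Co X Y) (ω : HT Y) :
    C.pb (∑ i ∈ s, f i) ω = ∑ i ∈ s, C.pb (f i) ω := by
  classical
  induction s using Finset.induction_on with
  | empty => rw [Finset.sum_empty, Finset.sum_empty, zero_pb]
  | insert m s hm ih => rw [Finset.sum_insert hm, Finset.sum_insert hm, C.add_pb, ih]

theorem sum_o {ι : Type} (s : Finset ι) (f : ι → C.Co X Y) (z : C.Co O X) :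
    C.o (∑ i ∈ s, f i) z = ∑ i ∈ s, C.o (f i) z := by
  classical
  induction s using Finset.induction_on with
  | empty => rw [Finset.sum_empty, Finset.sum_empty, zero_o]
  | insert m s hm ih => rw [Finset.sum_insert hm, Finset.sum_insert hm, C.add_o, ih]

theorem o_sum {ι : Type} (s : Finset ι) (f : C.Co X Y) (z : ι → C.Co O X) :
    C.o f (∑ i ∈ s, z i) = ∑ i ∈ s, C.o f (z i) := by
  classical
  induction s using Finset.induction_on with
  | empty => rw [Finset.sum_empty, Finset.sum_empty, o_zero]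
  | insert m s hm ih => rw [Finset.sum_insert hm, Finset.sum_insert hm, C.o_add, ih]

theorem pb_part (h : IsChowKunneth p P) (m : ℕ) (ω : HT X) : C.pb (P m) ω m = C.pb p ω m := by
  obtain ⟨-, -, ⟨N, hN, hN'⟩, h4⟩ := h
  have h1 : C.pb p ω m = ∑ l ∈ Finset.range N, C.pb (P l) ω m := by
    rw [hN, pb_sum]
    exact Finset.sum_apply m _ _
  rw [h1]
  by_cases hm : m < N
  · rw [Finset.sum_eq_single m (fun l _ hl => h4 l m hl.symm ω)
      (fun h => absurd (Finset.mem_range.2 hm) h)]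
  · rw [hN' m (not_lt.1 hm), zero_pb]
    exact (Finset.sum_eq_zero fun l hl => h4 l m (by
      have := Finset.mem_range.1 hl
      omega) ω).symm

theorem img_part (h : IsChowKunneth p P) (m : ℕ) : C.img (P m) m = C.img p m := by
  unfold ChowTheory.img
  congr 1
  ext θ
  constructor
  · rintro ⟨ω, rfl⟩
    exact ⟨ω, pb_part h m ω⟩
  · rintro ⟨ω, rfl⟩
    exact ⟨ω, (pb_part h m ω).symm⟩

theorem part_Wt (hG : GHC C.alg X) (h : IsChowKunneth p P) {n k m : ℕ} (hm : m = n + 2 * k)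
    (hL : ∀ s t : ℕ, s + t = m → (n : ℤ) < |(s : ℤ) - t| → HodgeZero p s t) :
    ∃ T ∈ Wt K X n k, ∃ A B : C.Co X X, C.IsDeg 0 A ∧ C.IsDeg 0 B ∧ P m = C.o A (C.o T B) := by
  obtain ⟨T, hT, h1⟩ := exists_Wt K hG (h.1 m).1 hm (fun l hl ω => h.2.2.2 m l hl ω)
    (fun s t hst hlt => by
      subst hst
      rw [img_part h]
      exact hL s t rfl hlt)
  obtain ⟨A, B, hA, hB, h2⟩ := through (h.1 m) (Wt_deg K hT) h1
  exact ⟨T, hT, A, B, hA, hB, h2⟩

include K in
/-- **Murre's conjectures (B) and (D) for the part of weight `m`.** -/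
theorem vanish (hG : GHC C.alg X) (hO : finrank ℚ O.H = 0) (h : IsChowKunneth p P) {i : ℤ} {m : ℕ}
    (hm : m ≤ 2 * i) (hH : ∀ s t : ℕ, s + t = m → i + 2 ≤ s ∨ i + 2 ≤ t → HodgeZero p s t)
    {z : C.Co O X} (hz : C.IsDeg i z) (h0 : m = 2 * i → ∀ ω, C.pb z ω = 0) :
    C.o (P m) z = 0 := by
  obtain ⟨n, k, hnk, h1, hL⟩ : ∃ n k : ℕ, m = n + 2 * k ∧ (n : ℤ) + k ≤ i + 1 ∧
      ∀ s t : ℕ, s + t = m → (n : ℤ) < |(s : ℤ) - t| → i + 2 ≤ s ∨ i + 2 ≤ t := by
    by_cases h2 : (m : ℤ) ≤ i + 1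
    · refine ⟨m, 0, by omega, by omega, fun s t hst h3 => ?_⟩
      exfalso
      rw [lt_abs] at h3
      omega
    · obtain ⟨k, hk⟩ : ∃ k : ℕ, (k : ℤ) = m - i - 1 := ⟨(m - i - 1).toNat, by omega⟩
      obtain ⟨n, hn⟩ : ∃ n : ℕ, (n : ℤ) = 2 * i + 2 - m := ⟨(2 * i + 2 - m).toNat, by omega⟩
      refine ⟨n, k, by omega, by omega, fun s t hst h3 => ?_⟩
      rw [lt_abs] at h3
      omega
  obtain ⟨T, hT, A, B, hA, hB, h2⟩ := part_Wt K hG h hnk fun s t hst h3 => hH s t hst (hL s t hst h3)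
  have hBz : C.IsDeg i (C.o B z) := by
    have h3 := C.deg_o z B hz hB
    rwa [add_zero] at h3
  rw [h2, ← C.assoc, ← C.assoc, Wt_zero K hO hT hBz h1 (by omega) (fun h3 ω => by
    rw [C.pb_o, h0 (by omega)]), o_zero]

/-- The weights and levels for Hodge level two. -/
theorem exists_nk (m : ℕ) : ∃ n k : ℕ, m = n + 2 * k ∧ n ≤ 2 ∧
    ∀ s t : ℕ, s + t = m → (n : ℤ) < |(s : ℤ) - t| → 3 ≤ |(s : ℤ) - t| := by
  rcases Nat.even_or_odd' m with ⟨k, hk | hk⟩
  · rcases k with _ | k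
    · refine ⟨0, 0, by omega, by omega, fun s t hst h => ?_⟩
      rw [lt_abs] at h
      omega
    · refine ⟨2, k, by omega, le_rfl, fun s t hst h => ?_⟩
      exact_mod_cast h
  · refine ⟨1, k, by omega, by omega, fun s t hst h => ?_⟩
    rw [lt_abs] at h
    rw [le_abs]
    omega

include K in
/-- Morphisms do not decrease the weight. -/
theorem no_mor (hG : GHC C.alg X) (hG' : GHC C.alg Y) {p' : C.Co Y Y} {P' : ℕ → C.Co Y Y}
    (h : IsChowKunneth p P) (h' : IsChowKunneth p' P') (hH : LevelTwo p) (hH' : LevelTwo p')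
    {r : ℤ} {f : C.Co X Y} (hf : C.IsDeg r f) {a b : ℕ} (hab : b < a + 2 * r) :
    C.o (P' b) (C.o f (P a)) = 0 := by
  obtain ⟨n, k, hnk, hn, hL⟩ := exists_nk a
  obtain ⟨n', k', hnk', hn', hL'⟩ := exists_nk b
  obtain ⟨T, hT, A, B, hA, hB, h2⟩ := part_Wt K hG h hnk fun s t hst h3 => hH s t (hL s t hst h3)
  obtain ⟨T', hT', A', B', hA', hB', h2'⟩ := part_Wt K hG' h' hnk' fun s t hst h3 =>
    hH' s t (hL' s t hst h3)
  have hg : C.IsDeg r (C.o B' (C.o f A)) := by
    have h3 := C.deg_o _ B' (C.deg_o A f hA hf) hB'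
    rwa [add_zero, zero_add] at h3
  have h3 := Wt_Wt K hT' hT hg (by omega) (by omega)
  have h4 : C.o (C.o A' (C.o T' B')) (C.o f (C.o A (C.o T B))) =
      C.o A' (C.o (C.o T' (C.o (C.o B' (C.o f A)) T)) B) := by
    simp only [← C.assoc]
  rw [h2, h2', h4, h3, zero_o, o_zero]

include K in
/-- There are no cycles on the parts of large weight. -/
theorem large (hG : GHC C.alg X) (hO : finrank ℚ O.H = 0) (h : IsChowKunneth p P)
    (hH : LevelTwo p) {i : ℤ} {m : ℕ} (hm : 2 * i + 3 ≤ m)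
    {z : C.Co O X} (hz : C.IsDeg i z) : C.o (P m) z = 0 := by
  obtain ⟨n, k, hnk, hn, hL⟩ := exists_nk m
  obtain ⟨T, hT, A, B, hA, hB, h2⟩ := part_Wt K hG h hnk fun s t hst h3 => hH s t (hL s t hst h3)
  have hBz : C.IsDeg i (C.o B z) := by
    have h3 := C.deg_o z B hz hB
    rwa [add_zero] at h3
  rw [h2, ← C.assoc, ← C.assoc, Wt_neg K hO hT hBz (by omega), o_zero]

include K in
/-- Cycles are homologically trivial on the parts of weight different from `2 i`. -/
theorem hom_part (hO : finrank ℚ O.H = 0) (h : IsChowKunneth p P) {i : ℤ} {m : ℕ}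
    (hm : (m : ℤ) ≠ 2 * i) {z : C.Co O X} (hz : C.IsDeg i z) (ω : HT X) :
    C.pb (C.o (P m) z) ω = 0 := by
  rw [C.pb_o]
  funext l
  rcases Nat.eq_zero_or_pos l with rfl | hl
  · have h1 := K.graded i z hz (C.pb (P m) ω) 0 0 fun a ha => by
      exact h.2.2.2 m a (by rintro rfl; apply hm; push_cast at ha; omega) ω
    rw [h1, pb_zero]
  · rw [form_zero (by omega) (C.pb z _ l)]
    rfl

theorem sum_part (h : IsChowKunneth p P) {z : C.Co O X} (hpz : C.o p z = z) :
    ∃ N, z = ∑ m ∈ Finset.range N, C.o (P m) z := by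
  obtain ⟨N, hN, -⟩ := h.2.2.1
  refine ⟨N, ?_⟩
  rw [← sum_o, ← hN, hpz]

include K in
/-- The filtration is functorial. -/
theorem functorial (hG : GHC C.alg X) (hG' : GHC C.alg Y) {p' : C.Co Y Y} {P' : ℕ → C.Co Y Y}
    (h : IsChowKunneth p P) (h' : IsChowKunneth p' P') (hp' : C.IsMotive p') (hH : LevelTwo p)
    (hH' : LevelTwo p') {r : ℤ} {f : C.Co X Y} (hf : C.IsDeg r f) {i : ℤ} {ν : ℕ} {z : C.Co O X}
    (hF : F p P i ν z) : F p' P' (i + r) ν (C.o p' (C.o f z)) := by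
  have hg : C.IsDeg r (C.o p' f) := by
    have h3 := C.deg_o f p' hf hp'.1
    rwa [add_zero] at h3
  refine ⟨?_, ?_, fun b hb => ?_⟩
  · have h3 := C.deg_o z _ hF.1 hg
    rwa [← C.assoc] at h3
  · rw [C.assoc _ p' p', hp'.2]
  · obtain ⟨N, hN⟩ := sum_part h hF.2.1
    rw [hN, o_sum, o_sum, o_sum]
    refine Finset.sum_eq_zero fun a _ => ?_
    by_cases hab : (b : ℤ) < a + 2 * r
    · have h3 := no_mor K hG hG' h h' hH hH' hg hab
      have h4 : C.o (P' b) (C.o p' (C.o f (C.o (P a) z))) =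
          C.o (C.o (P' b) (C.o (C.o p' f) (P a))) z := by
        simp only [← C.assoc]
      rw [h4, h3, zero_o]
    · rw [hF.2.2 a (by omega), o_zero, o_zero, o_zero]

include K in
/-- **Murre's conjectures for motives of Hodge level at most two.** -/
theorem murre (hG : GHC C.alg X) (hO : finrank ℚ O.H = 0) (hp : C.IsMotive p)
    (hH : LevelTwo p) (h : IsChowKunneth p P)
    {i : ℤ} {z : C.Co O X} (hz : C.IsDeg i z) (hpz : C.o p z = z) :
    F p P i 0 z ∧ (F p P i 1 z ↔ ∀ ω, C.pb z ω = 0) ∧ (F p P i 3 z → z = 0) ∧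
      ∀ P', IsChowKunneth p P' → ∀ ν, F p P i ν z ↔ F p P' i ν z := by
  have hbd : ∀ m : ℕ, (m : ℤ) ≤ 2 * i → ((m : ℤ) = 2 * i → ∀ ω, C.pb z ω = 0) →
      C.o (P m) z = 0 := fun m hm h0 =>
    vanish K hG hO h hm (fun s t hst h1 => hH s t (by
      rw [le_abs]
      omega)) hz h0
  have hone : ∀ P P', IsChowKunneth p P → IsChowKunneth p P' → ∀ ν, F p P i ν z →
      F p P' i ν z := by
    intro P P' h h' ν hF
    have h1 := functorial K hG hG h h' hp hH hH (C.deg_one X) hF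
    rwa [C.one_o, hpz, add_zero] at h1
  refine ⟨⟨hz, hpz, fun m hm => hbd m (by push_cast at hm; omega) fun h1 => ?_⟩, ⟨fun hF ω => ?_,
    fun h0 => ⟨hz, hpz, fun m hm => hbd m (by push_cast at hm; omega) fun _ => h0⟩⟩, fun hF => ?_,
    fun P' h' ν => ⟨hone P P' h h' ν, hone P' P h' h ν⟩⟩
  · exfalso
    push_cast at hm
    omega
  · obtain ⟨N, hN⟩ := sum_part h hpz
    rw [hN, pb_sum]
    refine Finset.sum_eq_zero fun m _ => ?_
    by_cases hm : (m : ℤ) = 2 * i
    · rw [hF.2.2 m (by push_cast; omega), zero_pb]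
    · exact hom_part K hO h hm hz ω
  · obtain ⟨N, hN⟩ := sum_part h hpz
    rw [hN]
    refine Finset.sum_eq_zero fun m _ => ?_
    by_cases hm : (m : ℤ) < 2 * i + 3
    · exact hF.2.2 m (by push_cast; omega)
    · exact large K hG hO h hH (by omega) hz

end

end Pool.Agent.N178.MU
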