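import Mathlib
import Pool.Agent.N178.MU.Murre

/-!
# Independence and functoriality of Murre's filtration: the proofs
-/

set_option linter.unusedSectionVars false

namespace Pool.Agent.N178.MU

open Module Pool.Agent.Y90 Pool.Agent.R915 Pool.Agent.N178.BL Pool.Agent.N178.GB
open Pool.Agent.W546.GHC (IsHodgeSubstructure LevelLE complexify typeForms)
open Pool.Agent.N178.HX (Cor GHC)

noncomputable section

variable {C : ChowTheory} (K : Projectors C) {X Y O : AV} {p : C.Co X X} {P P' : ℕ → C.Co X X}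

/-- The part `M_m` is zero if its Hodge numbers are zero. -/
theorem part_zero (h : IsChowKunneth p P) {m : ℕ}
    (hH : ∀ s t : ℕ, s + t = m → HodgeZero p s t) : P m = 0 := by
  have h1 : C.img (P m) m = ⊥ := by
    refine eq_bot_of ?_
    have h2 : complexify X.per (C.img (P m) m) =
        ⨆ (s : ℕ) (t : ℕ) (_ : s + t = m), complexify X.per (C.img (P m) m) ⊓ typeForms X.T m s t :=
      C.hodge (P m) (h.1 m).1 m
    rw [h2, eq_bot_iff]
    refine iSup_le fun s => iSup_le fun t => iSup_le fun hst => ?_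
    subst hst
    rw [img_part h]
    exact (hH s t rfl).le
  have h2 : ∀ ω, C.pb (0 : C.Co X X) ω = C.pb (P m) ω := by
    intro ω
    rw [zero_pb]
    funext l
    by_cases hl : l = m
    · subst hl
      have h3 : C.pb (P l) ω l ∈ C.img (P l) l := Submodule.subset_span ⟨ω, rfl⟩
      rw [h1, Submodule.mem_bot] at h3
      exact h3.symm
    · exact (h.2.2.2 m l hl ω).symm
  obtain ⟨A, B, -, -, h3⟩ := through (h.1 m) (deg_zero (C.deg_one X)) h2
  rw [h3, zero_o, o_zero]

/-- The level of the part `M_m`. -/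
theorem exists_level (p : C.Co X X) (m : ℕ) : (∀ s t : ℕ, s + t = m → HodgeZero p s t) ∨
    ∃ n k s t : ℕ, m = n + 2 * k ∧ s + t = m ∧ |(s : ℤ) - t| = n ∧ ¬ HodgeZero p s t ∧
      ∀ s t : ℕ, s + t = m → (n : ℤ) < |(s : ℤ) - t| → HodgeZero p s t := by
  classical
  have key : ∀ N : ℕ, (∀ s t : ℕ, s + t = m → (N : ℤ) ≤ |(s : ℤ) - t| → HodgeZero p s t) →
      (∀ s t : ℕ, s + t = m → HodgeZero p s t) ∨
      ∃ n k s t : ℕ, m = n + 2 * k ∧ s + t = m ∧ |(s : ℤ) - t| = n ∧ ¬ HodgeZero p s t ∧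
        ∀ s t : ℕ, s + t = m → (n : ℤ) < |(s : ℤ) - t| → HodgeZero p s t := by
    intro N
    induction N with
    | zero => exact fun h => Or.inl fun s t hst => h s t hst (abs_nonneg _)
    | succ N ih =>
      intro h
      by_cases h1 : ∀ s t : ℕ, s + t = m → |(s : ℤ) - t| = N → HodgeZero p s t
      · refine ih fun s t hst h2 => ?_
        rcases h2.eq_or_lt with h2 | h2
        · exact h1 s t hst h2.symm
        · exact h s t hst (by push_cast; omega)
      · push Not at h1
        obtain ⟨s, t, hst, h2, h3⟩ := h1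
        refine Or.inr ⟨N, (m - N) / 2, s, t, ?_, hst, h2, h3, fun s t hst h4 =>
          h s t hst (by push_cast; omega)⟩
        rcases abs_eq (Int.natCast_nonneg N) |>.1 h2 with h4 | h4 <;> omega
  refine key (m + 1) fun s t hst h => ?_
  exfalso
  rw [le_abs] at h
  push_cast at h
  omega

include K in
/-- Morphisms do not decrease the weight. -/
theorem no_mor' (hG : GHC C.alg X) (hG' : GHC C.alg Y) {q : C.Co Y Y} {Q : ℕ → C.Co Y Y}
    (h : IsChowKunneth p P) (h' : IsChowKunneth q Q) {r : ℤ}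
    (hA : ∀ s t s' t' : ℕ, (s' + t' : ℤ) < s + t + 2 * r → (min s t : ℤ) + r + 1 < max s' t' →
      HodgeZero p s t ∨ HodgeZero q s' t')
    {f : C.Co X Y} (hf : C.IsDeg r f) {a b : ℕ} (hab : b < a + 2 * r) :
    C.o (Q b) (C.o f (P a)) = 0 := by
  rcases exists_level p a with h1 | ⟨n, k, s, t, hnk, hst, hn, hne, hL⟩
  · rw [part_zero h h1, o_zero, o_zero]
  rcases exists_level q b with h1' | ⟨n', k', s', t', hnk', hst', hn', hne', hL'⟩
  · rw [part_zero h' h1', zero_o]
  obtain ⟨T, hT, A, B, hA1, hB, h2⟩ := part_Wt K hG h hnk hL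
  obtain ⟨T', hT', A', B', hA', hB', h2'⟩ := part_Wt K hG' h' hnk' hL'
  have hg : C.IsDeg r (C.o B' (C.o f A)) := by
    have h3 := C.deg_o _ B' (C.deg_o A f hA1 hf) hB'
    rwa [add_zero, zero_add] at h3
  have h5 : (n' : ℤ) + k' ≤ k + r + 1 := by
    by_contra h6
    rcases hA s t s' t' (by omega) (by
      rcases abs_eq (Int.natCast_nonneg n) |>.1 hn with h7 | h7 <;>
      rcases abs_eq (Int.natCast_nonneg n') |>.1 hn' with h8 | h8 <;> omega) with h7 | h7
    · exact hne h7
    · exact hne' h7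
  have h3 := Wt_Wt K hT' hT hg h5 (by omega)
  have h4 : C.o (C.o A' (C.o T' B')) (C.o f (C.o A (C.o T B))) =
      C.o A' (C.o (C.o T' (C.o (C.o B' (C.o f A)) T)) B) := by
    simp only [← C.assoc]
  rw [h2, h2', h4, h3, zero_o, o_zero]

include K in
/-- The filtration is functorial. -/
theorem functorial' (hG : GHC C.alg X) (hG' : GHC C.alg Y) {q : C.Co Y Y} {Q : ℕ → C.Co Y Y}
    (h : IsChowKunneth p P) (h' : IsChowKunneth q Q) (hq : C.IsMotive q) {r : ℤ}
    (hA : ∀ s t s' t' : ℕ, (s' + t' : ℤ) < s + t + 2 * r → (min s t : ℤ) + r + 1 < max s' t' →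
      HodgeZero p s t ∨ HodgeZero q s' t')
    {f : C.Co X Y} (hf : C.IsDeg r f) {i : ℤ} {ν : ℕ} {z : C.Co O X}
    (hF : F p P i ν z) : F q Q (i + r) ν (C.o q (C.o f z)) := by
  have hg : C.IsDeg r (C.o q f) := by
    have h3 := C.deg_o f q hf hq.1
    rwa [add_zero] at h3
  refine ⟨?_, ?_, fun b hb => ?_⟩
  · have h3 := C.deg_o z _ hF.1 hg
    rwa [← C.assoc] at h3
  · rw [C.assoc _ q q, hq.2]
  · obtain ⟨N, hN⟩ := sum_part h hF.2.1
    rw [hN, o_sum, o_sum, o_sum]
    refine Finset.sum_eq_zero fun a _ => ?_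
    by_cases hab : (b : ℤ) < a + 2 * r
    · have h3 := no_mor' K hG hG' h h' hA hg hab
      have h4 : C.o (Q b) (C.o q (C.o f (C.o (P a) z))) =
          C.o (C.o (Q b) (C.o (C.o q f) (P a))) z := by
        simp only [← C.assoc]
      rw [h4, h3, zero_o]
    · rw [hF.2.2 a (by omega), o_zero, o_zero, o_zero]

include K in
/-- The filtration is independent of the decomposition. -/
theorem indep (hG : GHC C.alg X) (hp : C.IsMotive p) (h : IsChowKunneth p P)
    (h' : IsChowKunneth p P')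
    (hA : ∀ s t s' t' : ℕ, s' + t' < s + t → min s t + 1 < max s' t' →
      HodgeZero p s t ∨ HodgeZero p s' t') {i : ℤ} {ν : ℕ} {z : C.Co O X} :
    F p P i ν z ↔ F p P' i ν z := by
  have hone : ∀ P P', IsChowKunneth p P → IsChowKunneth p P' → F p P i ν z →
      F p P' i ν z := by
    intro P P' h h' hF
    have h1 := functorial' K hG hG h h' hp (r := 0)
      (fun s t s' t' h1 h2 => hA s t s' t' (by omega) (by omega)) (C.deg_one X) hF
    rwa [C.one_o, hF.2.1, add_zero] at h1
  exact ⟨hone P P' h h', hone P' P h' h⟩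

end

end Pool.Agent.N178.MU
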