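import Mathlib
import Pool.Agent.N178.MU.Defs

/-!
# Smash-nilpotent cycles on complex abelian varieties: known properties
-/

namespace Pool.Agent.N178.MU

open Module Pool.Agent.Y90 Pool.Agent.R915 Pool.Agent.N178.BL

/-- Known properties of smash-nilpotent cycles (with rational coefficients) on complex abelian
varieties. The cycles on `X` are the correspondences from the point `O` to `X`. -/
structure Smash (C : ChowTheory) (O : AV) where
  /-- the cycle is smash-nilpotent -/
  Nil : ∀ {X}, C.Co O X → Prop
  nil_o : ∀ {X Y} (f : C.Co X Y) (z : C.Co O X), Nil z → Nil (C.o f z)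
  nil_sub : ∀ {X} (z z' : C.Co O X), Nil z → Nil z' → Nil (z - z')
  /-- Voevodsky, Voisin: homologically trivial zero-cycles are smash-nilpotent; Sebastian: the same
  holds for one-cycles -/
  nil_one : ∀ {X} i (z : C.Co O X), i ≤ 1 → C.IsDeg i z → (∀ ω, C.pb z ω = 0) → Nil z
  /-- Kimura: there is a projector `π` to the odd cohomology such that `π ∘ z` is smash-nilpotent for
  all cycles `z`, since the odd part of the motive of `X` is oddly finite dimensional -/
  nil_odd : ∀ X, ∃ π : C.Co X X, C.IsDeg 0 π ∧
    (∀ ω l, (Odd l → C.pb π ω l = ω l) ∧ (Even l → C.pb π ω l = 0)) ∧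
    ∀ z : C.Co O X, Nil (C.o π z)

end Pool.Agent.N178.MU
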