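import Mathlib
import Pool.Agent.N178.MU.SmDefs
import Pool.Agent.N178.MU.Main

/-!
# Smash-nilpotent cycles: the proofs
-/

set_option linter.unusedSectionVars false

namespace Pool.Agent.N178.MU

open Module Pool.Agent.Y90 Pool.Agent.R915 Pool.Agent.N178.BL Pool.Agent.N178.GB
open Pool.Agent.N178.AJ (complexify_bot)
open Pool.Agent.W546.GHC (IsHodgeSubstructure LevelLE complexify typeForms)
open Pool.Agent.N178.HX (Cor GHC)

noncomputable section

variable {C : ChowTheory} (K : Projectors C) {X Y O : AV}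

/-! ### The parts of a motive -/

/-- The part of degree `m` of a correspondence. -/
theorem part_deg {p : C.Co X X} (hp : C.IsDeg 0 p) (m : ℕ) : C.IsDeg 0 (C.o p (K.pr X m)) := by
  have h1 := C.deg_o _ _ (K.deg X m) hp
  rwa [zero_add] at h1

theorem part_pb (p : C.Co X X) (m : ℕ) (ω : HT X) :
    C.pb (C.o p (K.pr X m)) ω = inc X m (C.pb p ω m) := by
  rw [C.pb_o]
  exact eq_inc (K.kunneth X m _).1 (K.kunneth X m _).2

theorem part_img (p : C.Co X X) (m : ℕ) : C.img (C.o p (K.pr X m)) m = C.img p m := by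
  unfold ChowTheory.img
  congr 1
  ext θ
  constructor
  · rintro ⟨ω, rfl⟩
    exact ⟨ω, by rw [part_pb, inc_same]⟩
  · rintro ⟨ω, rfl⟩
    exact ⟨ω, by rw [part_pb, inc_same]⟩

/-- The parts of `p` with level at most `n`. -/
theorem part_T (hG : GHC C.alg X) {p : C.Co X X} (hp : C.IsDeg 0 p) {n k m : ℕ}
    (hm : m = n + 2 * k)
    (hL : ∀ s t : ℕ, s + t = m → (n : ℤ) < |(s : ℤ) - t| → HodgeZero p s t) :
    ∃ T ∈ Wt K X n k, ∀ ω, C.pb T ω = inc X m (C.pb p ω m) := by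
  obtain ⟨T, hT, h1⟩ := exists_Wt K hG (part_deg K hp m) hm (fun l hl ω => by
    rw [part_pb, inc_ne hl]) (fun s t hst hlt => by
      subst hst
      rw [part_img]
      exact hL s t rfl hlt)
  exact ⟨T, hT, fun ω => by rw [h1, part_pb]⟩

/-- A motive whose parts are homologically equivalent to correspondences which map the cycles in `H`
to cycles in `G`. -/
theorem of_parts {p : C.Co X X} (hp : C.IsMotive p) {H G : C.Co O X → Prop}
    (H_o : ∀ (B : C.Co X X) z, C.IsDeg 0 B → H z → H (C.o B z)) (G_zero : G 0)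
    (G_add : ∀ z z', G z → G z' → G (z + z')) (G_o : ∀ (A : C.Co X X) z, G z → G (C.o A z))
    (h : ∀ m, ∃ T : C.Co X X, C.IsDeg 0 T ∧ (∀ ω, C.pb T ω = inc X m (C.pb p ω m)) ∧
      ∀ z, H z → G (C.o T z)) {z : C.Co O X} (hz : H z) : G (C.o p z) := by
  classical
  choose T hT hT' hTG using h
  have hspb : ∀ (s : Finset ℕ) (ω : HT X), C.pb (∑ m ∈ s, T m) ω =
      ∑ m ∈ s, inc X m (C.pb p ω m) := by
    intro s ω
    induction s using Finset.induction_on with
    | empty => rw [Finset.sum_empty, Finset.sum_empty, zero_pb]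
    | insert m s hm ih => rw [Finset.sum_insert hm, Finset.sum_insert hm, C.add_pb, ih, hT']
  have hsum : ∀ (s : Finset ℕ) (y : C.Co O X), H y → G (C.o (∑ m ∈ s, T m) y) := by
    intro s y hy
    induction s using Finset.induction_on with
    | empty => rw [Finset.sum_empty, zero_o]; exact G_zero
    | insert m s hm ih =>
      rw [Finset.sum_insert hm, C.add_o]
      exact G_add _ _ (hTG m y hy) ih
  obtain ⟨A, B, hA, hB, h1⟩ := through hp (T := ∑ m ∈ Finset.range (finrank ℚ X.H + 1), T m)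
    (deg_sum _ _ (C.deg_one X) fun m _ => hT m) fun ω => by rw [hspb, ← sum_inc]
  rw [h1, ← C.assoc, ← C.assoc]
  exact G_o A _ (hsum _ _ (H_o B z hB hz))

/-! ### Smash-nilpotence -/

variable (A : Smash C O)

include A in
theorem nil_zero : A.Nil (0 : C.Co O X) := by
  have h := A.nil_one (X := O) 0 0 (by norm_num) (deg_zero (C.deg_one O)) (fun ω => zero_pb ω)
  have h1 := A.nil_o (0 : C.Co O X) _ h
  rwa [o_zero] at h1

theorem nil_neg {z : C.Co O X} (h : A.Nil z) : A.Nil (-z) := by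
  have h1 := A.nil_sub 0 z (nil_zero A) h
  rwa [zero_sub] at h1

theorem nil_add {z z' : C.Co O X} (h : A.Nil z) (h' : A.Nil z') : A.Nil (z + z') := by
  have h1 := A.nil_sub z (-z') h (nil_neg A h')
  rwa [sub_neg_eq_add] at h1

theorem Wt_nil {n k : ℕ} {T : C.Co X X} (hT : T ∈ Wt K X n k) {i : ℤ}
    {z : C.Co O X} (hz : C.IsDeg i z) (h1 : i ≤ k + 1) (h0 : ∀ ω, C.pb z ω = 0) :
    A.Nil (C.o T z) := by
  unfold Wt at hT
  induction hT using AddSubgroup.closure_induction with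
  | mem q hq =>
    obtain ⟨Y, Γ, κ, h3, h4, rfl⟩ := hq
    have hd := C.deg_o z Γ hz h3
    rw [← C.assoc, ← C.assoc]
    exact A.nil_o _ _ (A.nil_o _ _ (A.nil_one (i + -(k : ℤ)) _ (by omega) hd fun ω => by
      rw [C.pb_o, h0]))
  | zero => rw [zero_o]; exact nil_zero A
  | add a b _ _ ha hb => rw [C.add_o]; exact nil_add A ha hb
  | neg a _ ha => rw [neg_o]; exact nil_neg A ha

include K in
/-- **Voevodsky's conjecture.** -/
theorem smash (hG : GHC C.alg X) (hO : finrank ℚ O.H = 0) {p : C.Co X X} (hp : C.IsMotive p)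
    {i : ℤ} (hH : ∀ s t : ℕ, Even (s + t) → (s + 2 ≤ i ∧ i + 2 ≤ t) ∨ (t + 2 ≤ i ∧ i + 2 ≤ s) →
      HodgeZero p s t) {z : C.Co O X} (hz : C.IsDeg i z) (h0 : ∀ ω, C.pb z ω = 0) :
    A.Nil (C.o p z) := by
  refine of_parts hp (H := fun z => C.IsDeg i z ∧ ∀ ω, C.pb z ω = 0) (G := fun z => A.Nil z)
    (fun B z hB h => ⟨by
      have h1 := C.deg_o z B h.1 hB
      rwa [add_zero] at h1, fun ω => by rw [C.pb_o, h.2]⟩) (nil_zero A)
    (fun z z' => nil_add A) (fun f z h => A.nil_o f z h) (fun m => ?_) ⟨hz, h0⟩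
  rcases Nat.even_or_odd m with hm | hm
  · -- the level and the coniveau
    obtain ⟨n, k, hnk, hL, h⟩ : ∃ n k : ℕ, m = n + 2 * k ∧
        (∀ s t : ℕ, s + t = m → (n : ℤ) < |(s : ℤ) - t| →
          (s + 2 ≤ i ∧ i + 2 ≤ t) ∨ (t + 2 ≤ i ∧ i + 2 ≤ s)) ∧
        (i ≤ k + 1 ∨ ((n : ℤ) + k ≤ i + 1 ∧ (n : ℤ) + 2 * k ≤ 2 * i)) := by
      by_cases h1 : (m : ℤ) ≤ 2 * i
      · by_cases h2 : (m : ℤ) ≤ i + 1
        · refine ⟨m, 0, by omega, fun s t hst h3 => ?_, by omega⟩
          exfalso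
          rw [lt_abs] at h3
          omega
        · obtain ⟨k, hk⟩ : ∃ k : ℕ, (k : ℤ) = m - i - 1 := ⟨(m - i - 1).toNat, by omega⟩
          obtain ⟨n, hn⟩ : ∃ n : ℕ, (n : ℤ) = 2 * i + 2 - m := ⟨(2 * i + 2 - m).toNat, by omega⟩
          refine ⟨n, k, by omega, fun s t hst h3 => ?_, by omega⟩
          rw [lt_abs] at h3
          omega
      · by_cases h2 : i ≤ 1
        · refine ⟨m, 0, by omega, fun s t hst h3 => ?_, by omega⟩
          exfalso
          rw [lt_abs] at h3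
          omega
        · obtain ⟨k, hk⟩ : ∃ k : ℕ, (k : ℤ) = i - 1 := ⟨(i - 1).toNat, by omega⟩
          obtain ⟨n, hn⟩ : ∃ n : ℕ, n = m - 2 * k := ⟨_, rfl⟩
          refine ⟨n, k, by omega, fun s t hst h3 => ?_, by omega⟩
          rw [lt_abs] at h3
          omega
    obtain ⟨T, hT, h1⟩ := part_T K hG hp.1 hnk fun s t hst h3 =>
      hH s t (by rw [hst]; exact hm) (hL s t hst h3)
    refine ⟨T, Wt_deg K hT, h1, fun z hz => ?_⟩
    rcases h with h | ⟨h2, h3⟩
    · exact Wt_nil K A hT hz.1 h hz.2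
    · rw [Wt_zero K hO hT hz.1 h2 h3 fun _ => hz.2]
      exact nil_zero A
  · obtain ⟨ρ, hρ, hρ', hρ0⟩ := A.nil_odd X
    refine ⟨C.o (C.o p (K.pr X m)) ρ, ?_, fun ω => ?_, fun z _ => ?_⟩
    · have h2 := C.deg_o ρ _ hρ (part_deg K hp.1 m)
      rwa [zero_add] at h2
    · rw [C.pb_o ρ, part_pb]
      refine eq_inc ?_ fun l hl => ?_
      · rw [(hρ' _ m).1 hm, inc_same]
      · rcases Nat.even_or_odd l with h2 | h2
        · exact (hρ' _ l).2 h2
        · rw [(hρ' _ l).1 h2, inc_ne hl]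
    · rw [← C.assoc z ρ (C.o p (K.pr X m))]
      exact A.nil_o _ _ (hρ0 z)

end

end Pool.Agent.N178.MU
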