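import Mathlib
import Pool.Agent.N178.MU.AJDefs
import Pool.Agent.N178.MU.Sm
import Pool.Agent.N178.MU.Indep

/-!
# The complex Abel–Jacobi map and algebraic equivalence: the proofs
-/

set_option linter.unusedSectionVars false

namespace Pool.Agent.N178.MU

open Module Pool.Agent.Y90 Pool.Agent.R915 Pool.Agent.N178.BL Pool.Agent.N178.GB
open Pool.Agent.W546.GHC (IsHodgeSubstructure LevelLE complexify typeForms)
open Pool.Agent.N178.HX (Cor GHC)

noncomputable section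

variable {C : ChowTheory} {K : Projectors C} {X Y O : AV} {p : C.Co X X}

/-- The part of weight `m` is zero if its Hodge numbers are zero. -/
theorem inc_zero (hp : C.IsDeg 0 p) {m : ℕ} (hH : ∀ s t : ℕ, s + t = m → HodgeZero p s t)
    (ω : HT X) : inc X m (C.pb p ω m) = 0 := by
  have h1 : C.img p m = ⊥ := by
    refine eq_bot_of ?_
    have h2 : complexify X.per (C.img p m) =
        ⨆ (s : ℕ) (t : ℕ) (_ : s + t = m), complexify X.per (C.img p m) ⊓ typeForms X.T m s t :=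
      C.hodge p hp m
    rw [h2, eq_bot_iff]
    refine iSup_le fun s => iSup_le fun t => iSup_le fun hst => ?_
    subst hst
    exact (hH s t rfl).le
  have h3 : C.pb p ω m ∈ C.img p m := Submodule.subset_span ⟨ω, rfl⟩
  rw [h1, Submodule.mem_bot] at h3
  rw [h3, map_zero]

/-- Cycles on `h_1(Y)`. -/
theorem Wt_alb (A : AbelJacobi K O) {k : ℕ} {T : C.Co X X} (hT : T ∈ Wt K X 1 k)
    {z : C.Co O X} (hz : C.IsDeg k z) (h0 : A.Triv z) : C.o T z = 0 := by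
  unfold Wt at hT
  induction hT using AddSubgroup.closure_induction with
  | mem q hq =>
    obtain ⟨Y, Γ, κ, h3, h4, rfl⟩ := hq
    have hd := C.deg_o z Γ hz h3
    rw [add_neg_cancel] at hd
    rw [← C.assoc, ← C.assoc, A.albanese _ hd (A.triv_o Γ z h0), o_zero]
  | zero => exact zero_o _
  | add a b _ _ ha hb => rw [C.add_o, ha, hb, add_zero]
  | neg a _ ha => rw [neg_o, ha, neg_zero]

theorem alg_zero' (A : AbelJacobi K O) : A.Alg (0 : C.Co O X) := by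
  have h := A.alg_zero (X := O) 0 (deg_zero (C.deg_one O)) (fun ω => zero_pb ω)
  have h1 := A.alg_o (0 : C.Co O X) _ h
  rwa [o_zero] at h1

theorem alg_add (A : AbelJacobi K O) {z z' : C.Co O X} (h : A.Alg z) (h' : A.Alg z') :
    A.Alg (z + z') := by
  have h1 := A.alg_sub z (0 - z') h (A.alg_sub _ _ (alg_zero' A) h')
  rwa [zero_sub, sub_neg_eq_add] at h1

/-- Zero-cycles. -/
theorem Wt_alg (A : AbelJacobi K O) {n k : ℕ} {T : C.Co X X} (hT : T ∈ Wt K X n k)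
    {z : C.Co O X} (hz : C.IsDeg k z) (h0 : ∀ ω, C.pb z ω = 0) : A.Alg (C.o T z) := by
  unfold Wt at hT
  induction hT using AddSubgroup.closure_induction with
  | mem q hq =>
    obtain ⟨Y, Γ, κ, h3, h4, rfl⟩ := hq
    have hd := C.deg_o z Γ hz h3
    rw [add_neg_cancel] at hd
    rw [← C.assoc, ← C.assoc]
    exact A.alg_o _ _ (A.alg_o _ _ (A.alg_zero _ hd fun ω => by rw [C.pb_o, h0]))
  | zero => rw [zero_o]; exact alg_zero' A
  | add a b _ _ ha hb => rw [C.add_o]; exact alg_add A ha hb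
  | neg a _ ha =>
    rw [neg_o, ← zero_sub]
    exact A.alg_sub _ _ (alg_zero' A) ha

/-- The weights `m ≤ 2 i`. -/
theorem small_weight {i : ℤ} {m : ℕ} (hm : m ≤ 2 * i) : ∃ n k : ℕ, m = n + 2 * k ∧
    (n : ℤ) + k ≤ i + 1 ∧ ∀ s t : ℕ, s + t = m → (n : ℤ) < |(s : ℤ) - t| →
      (s + 2 ≤ i ∧ i + 2 ≤ t) ∨ (t + 2 ≤ i ∧ i + 2 ≤ s) := by
  by_cases h2 : (m : ℤ) ≤ i + 1
  · refine ⟨m, 0, by omega, by omega, fun s t hst h3 => ?_⟩
    exfalso
    rw [lt_abs] at h3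
    omega
  · obtain ⟨k, hk⟩ : ∃ k : ℕ, (k : ℤ) = m - i - 1 := ⟨(m - i - 1).toNat, by omega⟩
    obtain ⟨n, hn⟩ : ∃ n : ℕ, (n : ℤ) = 2 * i + 2 - m := ⟨(2 * i + 2 - m).toNat, by omega⟩
    refine ⟨n, k, by omega, by omega, fun s t hst h3 => ?_⟩
    rw [lt_abs] at h3
    omega

/-- The weights `m ≥ 2 i + 2 d`. -/
theorem large_weight {i : ℤ} {m : ℕ} {d : ℤ} (hd : 0 ≤ i + d) (hm : 2 * (i + d) ≤ m) :
    ∃ n k : ℕ, m = n + 2 * k ∧ (k : ℤ) = i + d ∧
      ∀ s t : ℕ, s + t = m → (n : ℤ) < |(s : ℤ) - t| →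
        (s + 1 ≤ i + d ∧ i + d + 1 ≤ t) ∨ (t + 1 ≤ i + d ∧ i + d + 1 ≤ s) := by
  obtain ⟨k, hk⟩ : ∃ k : ℕ, (k : ℤ) = i + d := ⟨(i + d).toNat, by omega⟩
  refine ⟨m - 2 * k, k, by omega, hk, fun s t hst h3 => ?_⟩
  rw [lt_abs] at h3
  omega

/-- **Homologically trivial cycles are zero.** -/
theorem zero_range (hG : GHC C.alg X) (K : Projectors C) (hO : finrank ℚ O.H = 0)
    (hp : C.IsMotive p) {i : ℤ}
    (hH : ∀ s t : ℕ, (s ≤ i ∧ i + 1 ≤ t) ∨ (t ≤ i ∧ i + 1 ≤ s) → HodgeZero p s t)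
    {z : C.Co O X} (hz : C.IsDeg i z) (h0 : ∀ ω, C.pb z ω = 0) : C.o p z = 0 := by
  rcases lt_or_ge i 0 with hi | hi
  · rw [C.deg_neg z hz (by rw [hO]; push_cast; omega), o_zero]
  refine of_parts hp (H := fun z => C.IsDeg i z ∧ ∀ ω, C.pb z ω = 0) (G := fun z => z = 0)
    (fun B z hB h => ⟨by
      have h1 := C.deg_o z B h.1 hB
      rwa [add_zero] at h1, fun ω => by rw [C.pb_o, h.2]⟩) rfl
    (fun z z' h h' => by rw [h, h', add_zero]) (fun f z h => by rw [h, o_zero]) (fun m => ?_)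
    ⟨hz, h0⟩
  by_cases hm : (m : ℤ) ≤ 2 * i
  · obtain ⟨n, k, hnk, h1, hL⟩ := small_weight hm
    obtain ⟨T, hT, h2⟩ := part_T K hG hp.1 hnk fun s t hst h3 => hH s t (by
      have := hL s t hst h3
      omega)
    exact ⟨T, Wt_deg K hT, h2, fun z hz => Wt_zero K hO hT hz.1 h1 (by omega) fun _ => hz.2⟩
  · by_cases hm1 : (m : ℤ) = 2 * i + 1
    · refine ⟨0, deg_zero hp.1, fun ω => ?_, fun z _ => zero_o z⟩
      rw [zero_pb, inc_zero hp.1 fun s t hst => hH s t (by omega)]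
    · obtain ⟨n, k, hnk, hk, hL⟩ := large_weight (i := i) (m := m) (d := 1) (by omega) (by omega)
      obtain ⟨T, hT, h2⟩ := part_T K hG hp.1 hnk fun s t hst h3 => hH s t (by
        have := hL s t hst h3
        omega)
      exact ⟨T, Wt_deg K hT, h2, fun z hz => Wt_neg K hO hT hz.1 (by omega)⟩

/-- **The Abel–Jacobi map is injective.** -/
theorem aj_range (hG : GHC C.alg X) (A : AbelJacobi K O) (hO : finrank ℚ O.H = 0)
    (hp : C.IsMotive p) {i : ℤ}
    (hH : ∀ s t : ℕ, (s ≤ i ∧ i + 2 ≤ t) ∨ (t ≤ i ∧ i + 2 ≤ s) → HodgeZero p s t)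
    {z : C.Co O X} (hz : C.IsDeg i z) (h0 : ∀ ω, C.pb z ω = 0) (ht : A.Triv z) : C.o p z = 0 := by
  rcases lt_or_ge i 0 with hi | hi
  · rw [C.deg_neg z hz (by rw [hO]; push_cast; omega), o_zero]
  refine of_parts hp (H := fun z => C.IsDeg i z ∧ (∀ ω, C.pb z ω = 0) ∧ A.Triv z)
    (G := fun z => z = 0)
    (fun B z hB h => ⟨by
      have h1 := C.deg_o z B h.1 hB
      rwa [add_zero] at h1, fun ω => by rw [C.pb_o, h.2.1], A.triv_o B z h.2.2⟩) rfl
    (fun z z' h h' => by rw [h, h', add_zero]) (fun f z h => by rw [h, o_zero]) (fun m => ?_)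
    ⟨hz, h0, ht⟩
  by_cases hm : (m : ℤ) ≤ 2 * i
  · obtain ⟨n, k, hnk, h1, hL⟩ := small_weight hm
    obtain ⟨T, hT, h2⟩ := part_T K hG hp.1 hnk fun s t hst h3 => hH s t (by
      have := hL s t hst h3
      omega)
    exact ⟨T, Wt_deg K hT, h2, fun z hz => Wt_zero K hO hT hz.1 h1 (by omega) fun _ => hz.2.1⟩
  · by_cases hm1 : (m : ℤ) = 2 * i + 1
    · obtain ⟨k, hk⟩ : ∃ k : ℕ, (k : ℤ) = i := ⟨i.toNat, by omega⟩
      subst hk
      obtain ⟨T, hT, h2⟩ := part_T K hG hp.1 (n := 1) (k := k) (m := m) (by omega)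
        fun s t hst h3 => hH s t (by
          rw [lt_abs] at h3
          omega)
      exact ⟨T, Wt_deg K hT, h2, fun z hz => Wt_alb A hT hz.1 hz.2.2⟩
    · obtain ⟨n, k, hnk, hk, hL⟩ := large_weight (i := i) (m := m) (d := 1) (by omega) (by omega)
      obtain ⟨T, hT, h2⟩ := part_T K hG hp.1 hnk fun s t hst h3 => hH s t (by
        have := hL s t hst h3
        omega)
      exact ⟨T, Wt_deg K hT, h2, fun z hz => Wt_neg K hO hT hz.1 (by omega)⟩

/-- **Homologically trivial cycles are algebraically trivial.** -/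
theorem alg_range (hG : GHC C.alg X) (A : AbelJacobi K O) (hO : finrank ℚ O.H = 0)
    (hp : C.IsMotive p) {i : ℤ}
    (hH : ∀ s t : ℕ, (s + 1 ≤ i ∧ i + 2 ≤ t) ∨ (t + 1 ≤ i ∧ i + 2 ≤ s) → HodgeZero p s t)
    {z : C.Co O X} (hz : C.IsDeg i z) (h0 : ∀ ω, C.pb z ω = 0) : A.Alg (C.o p z) := by
  rcases lt_or_ge i 0 with hi | hi
  · rw [C.deg_neg z hz (by rw [hO]; push_cast; omega), o_zero]
    exact alg_zero' A
  refine of_parts hp (H := fun z => C.IsDeg i z ∧ ∀ ω, C.pb z ω = 0) (G := fun z => A.Alg z)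
    (fun B z hB h => ⟨by
      have h1 := C.deg_o z B h.1 hB
      rwa [add_zero] at h1, fun ω => by rw [C.pb_o, h.2]⟩) (alg_zero' A)
    (fun z z' => alg_add A) (fun f z h => A.alg_o f z h) (fun m => ?_) ⟨hz, h0⟩
  by_cases hm : (m : ℤ) ≤ 2 * i
  · obtain ⟨n, k, hnk, h1, hL⟩ := small_weight hm
    obtain ⟨T, hT, h2⟩ := part_T K hG hp.1 hnk fun s t hst h3 => hH s t (by
      have := hL s t hst h3
      omega)
    refine ⟨T, Wt_deg K hT, h2, fun z hz => ?_⟩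
    rw [Wt_zero K hO hT hz.1 h1 (by omega) fun _ => hz.2]
    exact alg_zero' A
  · obtain ⟨n, k, hnk, hk, hL⟩ := large_weight (i := i) (m := m) (d := 0) (by omega) (by omega)
    obtain rfl : i = k := by omega
    obtain ⟨T, hT, h2⟩ := part_T K hG hp.1 hnk fun s t hst h3 => hH s t (by
      have := hL s t hst h3
      omega)
    exact ⟨T, Wt_deg K hT, h2, fun z hz => Wt_alg A hT hz.1 hz.2⟩

end

end Pool.Agent.N178.MU
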