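import Mathlib
import Pool.Agent.N178.MU.Defs

/-!
# Direct summands of Tate twists of motives of abelian varieties
-/

namespace Pool.Agent.N178.MU

open Module Pool.Agent.Y90 Pool.Agent.R915 Pool.Agent.N178.BL

/-- The correspondence `q` from `X` to `X` is a sum of compositions `κ ∘ π_n ∘ Γ`, where `Γ` is a
correspondence of degree `-c` from `X` to an abelian variety `Y`, `π_n` the projector to `h_n(Y)`, and
`κ` a correspondence of degree `c` from `Y` to `X`. If `q` is idempotent this says that the motive
`(X, q)` is a direct summand of a finite sum of motives `h_n(Y)(c)`. -/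
def ThroughTwists {C : ChowTheory} (K : Projectors C) {X : AV} (n c : ℕ) (q : C.Co X X) : Prop :=
  q ∈ AddSubgroup.closure {q | ∃ (Y : AV) (Γ : C.Co X Y) (κ : C.Co Y X),
    C.IsDeg (-(c : ℤ)) Γ ∧ C.IsDeg c κ ∧ q = C.o κ (C.o (K.pr Y n) Γ)}

end Pool.Agent.N178.MU
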