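import Mathlib
import Pool.Agent.N178.MU.GHDefs
import Pool.Agent.N178.MU.Murre

/-!
# Direct summands of Tate twists of motives of abelian varieties: the proofs
-/

set_option linter.unusedSectionVars false

namespace Pool.Agent.N178.MU

open Module Pool.Agent.Y90 Pool.Agent.R915 Pool.Agent.N178.BL Pool.Agent.N178.GB
open Pool.Agent.N178.HX (Cor GHC)

noncomputable section

variable {C : ChowTheory} (K : Projectors C) {X Y O : AV} {p : C.Co X X} {P : ℕ → C.Co X X}

theorem Wt_left {n k : ℕ} {T f : C.Co X X} (hT : T ∈ Wt K X n k) (hf : C.IsDeg 0 f) :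
    C.o f T ∈ Wt K X n k := by
  unfold Wt at hT
  induction hT using AddSubgroup.closure_induction with
  | mem q hq =>
    obtain ⟨Y, Γ, κ, h3, h4, rfl⟩ := hq
    refine AddSubgroup.subset_closure ⟨Y, Γ, C.o f κ, h3, ?_, C.assoc _ _ _⟩
    have h5 := C.deg_o κ f h4 hf
    rwa [add_zero] at h5
  | zero => rw [o_zero]; exact AddSubgroup.zero_mem _
  | add a b _ _ ha hb => rw [C.o_add]; exact AddSubgroup.add_mem _ ha hb
  | neg a _ ha => rw [o_neg]; exact AddSubgroup.neg_mem _ ha

theorem Wt_right {n k : ℕ} {T f : C.Co X X} (hT : T ∈ Wt K X n k) (hf : C.IsDeg 0 f) :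
    C.o T f ∈ Wt K X n k := by
  unfold Wt at hT
  induction hT using AddSubgroup.closure_induction with
  | mem q hq =>
    obtain ⟨Y, Γ, κ, h3, h4, rfl⟩ := hq
    refine AddSubgroup.subset_closure ⟨Y, C.o Γ f, κ, ?_, h4, ?_⟩
    · have h5 := C.deg_o f Γ hf h3
      rwa [zero_add] at h5
    · simp only [← C.assoc]
  | zero => rw [zero_o]; exact AddSubgroup.zero_mem _
  | add a b _ _ ha hb => rw [C.add_o]; exact AddSubgroup.add_mem _ ha hb
  | neg a _ ha => rw [neg_o]; exact AddSubgroup.neg_mem _ ha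

include K in
/-- **The motivic form of the generalized Hodge conjecture.** -/
theorem through_twists (hG : GHC C.alg X) (h : IsChowKunneth p P) {m c : ℕ} (hm : 2 * c ≤ m)
    (hH : ∀ s t : ℕ, s + t = m → s ≠ t → s < c ∨ t < c → HodgeZero p s t) :
    ThroughTwists K (m - 2 * c) c (P m) := by
  obtain ⟨T, hT, A, B, hA, hB, h2⟩ := part_Wt K hG h (n := m - 2 * c) (k := c) (by omega)
    fun s t hst h3 => hH s t hst (by
      rintro rfl
      rw [sub_self, abs_zero] at h3
      omega) (by
      rw [lt_abs] at h3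
      omega)
  rw [h2]
  exact Wt_left K (Wt_right K hT hB) hA

end

end Pool.Agent.N178.MU
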