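import Mathlib
import Pool.Agent.N178.MU.GH

/-!
# Murre's conjecture (B) for motives of Hodge level at most four: the proofs
-/

set_option linter.unusedSectionVars false

namespace Pool.Agent.N178.MU

open Module Pool.Agent.Y90 Pool.Agent.R915 Pool.Agent.N178.BL Pool.Agent.N178.GB
open Pool.Agent.N178.HX (Cor GHC)
open Pool.Agent.W546.GHC (IsHodgeSubstructure complexify typeForms)

noncomputable section

variable {C : ChowTheory} {K : Projectors C} {X Y O : AV} {p : C.Co X X} {P : ℕ → C.Co X X}

/-- Homologically trivial idempotents are zero. -/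
theorem idem_zero {e : C.Co X X} (he : C.IsMotive e) (h0 : ∀ ω, C.pb e ω = 0) : e = 0 := by
  obtain ⟨N, hN⟩ := C.nilpotent e he.1 h0
  have h1 : ∀ k : ℕ, (fun g : C.Co X X => C.o e g)^[k + 1] (C.one X) = e := by
    intro k
    induction k with
    | zero => exact C.o_one e
    | succ k ih => rw [Function.iterate_succ_apply', ih, he.2]
  have h2 := h1 N
  rw [Function.iterate_succ_apply', hN, o_zero] at h2
  exact h2.symm

/-- The part of weight `m` is zero if the Hodge numbers are zero. -/
theorem part_zero (h : IsChowKunneth p P) {m : ℕ} (h0 : ∀ s t : ℕ, s + t = m → HodgeZero p s t) :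
    P m = 0 := by
  refine idem_zero (h.1 m) fun ω => ?_
  have h1 : C.img (P m) m = ⊥ := by
    refine eq_bot_of (X := X) ?_
    have h2 := C.hodge (P m) (h.1 m).1 m
    change IsHodgeSubstructure X.per (C.img (P m) m) at h2
    unfold IsHodgeSubstructure at h2
    rw [h2, eq_bot_iff]
    refine iSup_le fun s => iSup_le fun t => iSup_le fun hst => ?_
    rw [img_part h]
    subst hst
    exact (h0 s t rfl).le
  funext l
  by_cases hl : l = m
  · subst hl
    have h2 : C.pb (P l) ω l ∈ C.img (P l) l := Submodule.subset_span ⟨ω, rfl⟩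
    rw [h1, Submodule.mem_bot] at h2
    exact h2
  · exact h.2.2.2 m l hl ω

/-- **Murre's conjecture (B), the vanishing for large weights.** -/
theorem murreB1 (K : Projectors C) (hG : GHC C.alg X) (hO : finrank ℚ O.H = 0)
    (h : IsChowKunneth p P) {d : ℕ} (hd : ∀ s t : ℕ, d < s ∨ d < t → HodgeZero p s t) {i : ℤ}
    {z : C.Co O X} (hz : C.IsDeg i z) {m : ℕ} (hm : d + i < m) : C.o (P m) z = 0 := by
  rcases lt_or_ge i 0 with hi | hi
  · have h1 : z = 0 := C.deg_neg z hz (by rw [hO]; push_cast; omega)
    rw [h1, o_zero]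
  · rcases lt_or_ge (2 * d) m with h2 | h2
    · rw [part_zero h fun s t hst => hd s t (by omega), zero_o]
    · have h3 := through_twists K hG h (m := m) (c := m - d) (by omega)
        fun s t hst _ h4 => hd s t (by omega)
      exact Wt_neg K hO h3 hz (by omega)

/-- **Murre's conjecture (B), the vanishing for small weights.** -/
theorem murreB0 (K : Projectors C) (hG : GHC C.alg X) (hO : finrank ℚ O.H = 0)
    (h : IsChowKunneth p P) (hL : ∀ s t : ℕ, 5 ≤ |(s : ℤ) - t| → HodgeZero p s t) {i : ℤ}
    {z : C.Co O X} (hz : C.IsDeg i z) {m : ℕ} (hm : m < 2 * i) : C.o (P m) z = 0 := by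
  refine vanish K hG hO h hm.le (fun s t hst h1 => hL s t ?_) hz (fun h1 => by omega)
  rw [le_abs]
  omega

end

end Pool.Agent.N178.MU
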