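import Mathlib
import Pool.Agent.N178.MU.Defs

/-!
# Abel–Jacobi maps over number fields: known properties
-/

namespace Pool.Agent.N178.MU

open Module Pool.Agent.Y90 Pool.Agent.R915 Pool.Agent.N178.BL

/-- Known properties of the Chow groups of abelian varieties over an algebraically closed subfield
`k` of `ℂ`, for instance the algebraic closure of a number field `K`, and of an Abel–Jacobi map with
rational coefficients on homologically trivial cycles: the `p`-adic one, or the complex one. The
cycles on `X` are the correspondences from the point `O` to `X`. -/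
structure ArithmeticAJ {C : ChowTheory} (K : Projectors C) (O : AV) where
  /-- `X` is defined over `k` -/
  Def : AV → Prop
  /-- the correspondence is defined over `k` -/
  Rat : ∀ {X Y}, C.Co X Y → Prop
  /-- `Triv i z`: the cycle `z` on `X` of dimension `i` is defined over `k` and homologically trivial,
  and its Abel–Jacobi image is zero (for the `p`-adic Abel–Jacobi map: over a finite extension of `K`
  over which `z` is defined) -/
  Triv : ∀ {X}, ℤ → C.Co O X → Prop
  deg : ∀ {X} i (z : C.Co O X), Triv i z → C.IsDeg i z
  hom : ∀ {X} i (z : C.Co O X), Triv i z → ∀ ω, C.pb z ω = 0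
  /-- the Abel–Jacobi map is functorial -/
  functorial : ∀ {X Y} i r (z : C.Co O X) (f : C.Co X Y), Rat f → C.IsDeg r f → Triv i z →
    Triv (i + r) (C.o f z)
  /-- the group `CH_0(h_1(Y))` is the group of the points of `Y`, with rational coefficients; with
  the theorem of Mordell–Weil for the `p`-adic Abel–Jacobi map -/
  albanese : ∀ {Y} (z : C.Co O Y), Def Y → Triv 0 z → C.o (K.pr Y 1) z = 0
  /-- spreading out and specialization: the composition of `Γ`, the projector to `h_1(Y)`, and `κ` is
  homologically equivalent to such a composition over `k` -/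
  spread : ∀ {X} Y r (Γ : C.Co X Y) (κ : C.Co Y X), Def X → C.IsDeg (-r) Γ → C.IsDeg r κ →
    ∃ (Y' : AV) (Γ' : C.Co X Y') (κ' : C.Co Y' X), Def Y' ∧ Rat Γ' ∧ C.IsDeg (-r) Γ' ∧
      C.IsDeg r κ' ∧ ∀ ω, C.pb (C.o κ' (C.o (K.pr Y' 1) Γ')) ω = C.pb (C.o κ (C.o (K.pr Y 1) Γ)) ω

end Pool.Agent.N178.MU
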