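import Mathlib
import Pool.Agent.N178.MU.PadDefs
import Pool.Agent.N178.MU.AJ

/-!
# Abel–Jacobi maps over number fields: the proofs
-/

set_option linter.unusedSectionVars false

namespace Pool.Agent.N178.MU

open Module Pool.Agent.Y90 Pool.Agent.R915 Pool.Agent.N178.BL Pool.Agent.N178.GB
open Pool.Agent.N178.AJ (neg_pb)
open Pool.Agent.W546.GHC (IsHodgeSubstructure LevelLE complexify typeForms)
open Pool.Agent.N178.HX (Cor GHC)

noncomputable section

variable {C : ChowTheory} {K : Projectors C} {X Y O : AV} {p : C.Co X X}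

/-- The compositions through `h_1(Y)` over `k`. -/
theorem descend (A : ArithmeticAJ K O) (hX : A.Def X) {k : ℕ} {T : C.Co X X}
    (hT : T ∈ Wt K X 1 k) : ∃ T' : C.Co X X, C.IsDeg 0 T' ∧ (∀ ω, C.pb T' ω = C.pb T ω) ∧
      ∀ z : C.Co O X, A.Triv k z → C.o T' z = 0 := by
  unfold Wt at hT
  induction hT using AddSubgroup.closure_induction with
  | mem q hq =>
    obtain ⟨Y, Γ, κ, h3, h4, rfl⟩ := hq
    obtain ⟨Y', Γ', κ', hY, hr, hΓ, hκ, h⟩ := A.spread Y k Γ κ hX h3 h4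
    refine ⟨_, ?_, h, fun z hz => ?_⟩
    · have h5 := C.deg_o _ κ' (C.deg_o Γ' _ hΓ (K.deg Y' 1)) hκ
      rwa [add_zero, neg_add_cancel] at h5
    · have h5 := A.functorial _ _ z Γ' hr hΓ hz
      rw [add_neg_cancel] at h5
      rw [← C.assoc, ← C.assoc, A.albanese _ hY h5, o_zero]
  | zero => exact ⟨0, deg_zero (C.deg_one X), fun _ => rfl, fun z _ => zero_o z⟩
  | add a b _ _ ha hb =>
    obtain ⟨T, h1, h2, h3⟩ := ha
    obtain ⟨T', h1', h2', h3'⟩ := hb
    refine ⟨T + T', deg_add h1 h1', fun ω => by rw [C.add_pb, C.add_pb, h2, h2'], fun z hz => ?_⟩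
    rw [C.add_o, h3 z hz, h3' z hz, add_zero]
  | neg a _ ha =>
    obtain ⟨T, h1, h2, h3⟩ := ha
    refine ⟨-T, deg_neg' h1, fun ω => by rw [neg_pb, neg_pb, h2], fun z hz => ?_⟩
    rw [neg_o, h3 z hz, neg_zero]

/-- A cycle which is killed by the parts is zero. -/
theorem zero_of_parts (hp : C.IsMotive p) {z : C.Co O X} (hpz : C.o p z = z)
    (h : ∀ m, ∃ T : C.Co X X, C.IsDeg 0 T ∧ (∀ ω, C.pb T ω = inc X m (C.pb p ω m)) ∧
      C.o T z = 0) : z = 0 := by
  classical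
  choose T hT hT' hTz using h
  obtain ⟨S, hS⟩ : ∃ S, S = ∑ m ∈ Finset.range (finrank ℚ X.H + 1), T m := ⟨_, rfl⟩
  have hSd : C.IsDeg 0 S := by
    rw [hS]
    exact deg_sum _ _ (C.deg_one X) fun m _ => hT m
  have hSpb : ∀ ω, C.pb S ω = C.pb p ω := fun ω => by
    rw [hS, pb_sum, sum_inc (C.pb p ω)]
    exact Finset.sum_congr rfl fun m _ => hT' m ω
  have hSz : C.o S z = 0 := by
    rw [hS, sum_o]
    exact Finset.sum_eq_zero fun m _ => hTz m
  obtain ⟨N, hN⟩ := C.nilpotent (p - S) (C.deg_sub _ _ hp.1 hSd) fun ω => by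
    rw [pb_sub, hSpb, sub_self]
  have h1 : C.o (p - S) z = z := by
    have h2 := C.add_o (p - S) S z
    rw [sub_add_cancel, hSz, add_zero, hpz] at h2
    exact h2.symm
  have key : ∀ k : ℕ, C.o ((fun g : C.Co X X => C.o (p - S) g)^[k] (C.one X)) z = z := by
    intro k
    induction k with
    | zero => rw [Function.iterate_zero, id_eq, C.one_o]
    | succ k ih => rw [Function.iterate_succ_apply', ← C.assoc, ih, h1]
  rw [← key N, hN, zero_o]

/-- **The Abel–Jacobi map is injective.** -/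
theorem padic (hG : GHC C.alg X) (A : ArithmeticAJ K O) (hO : finrank ℚ O.H = 0) (hX : A.Def X)
    (hp : C.IsMotive p) {i : ℤ}
    (hH : ∀ s t : ℕ, (s ≤ i ∧ i + 2 ≤ t) ∨ (t ≤ i ∧ i + 2 ≤ s) → HodgeZero p s t)
    {z : C.Co O X} (hz : A.Triv i z) (hpz : C.o p z = z) : z = 0 := by
  have hzd := A.deg i z hz
  rcases lt_or_ge i 0 with hi | hi
  · exact C.deg_neg z hzd (by rw [hO]; push_cast; omega)
  refine zero_of_parts hp hpz fun m => ?_
  by_cases hm : (m : ℤ) ≤ 2 * i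
  · obtain ⟨n, k, hnk, h1, hL⟩ := small_weight hm
    obtain ⟨T, hT, h2⟩ := part_T K hG hp.1 hnk fun s t hst h3 => hH s t (by
      have := hL s t hst h3
      omega)
    exact ⟨T, Wt_deg K hT, h2, Wt_zero K hO hT hzd h1 (by omega) fun _ => A.hom i z hz⟩
  · by_cases hm1 : (m : ℤ) = 2 * i + 1
    · obtain ⟨k, hk⟩ : ∃ k : ℕ, (k : ℤ) = i := ⟨i.toNat, by omega⟩
      subst hk
      obtain ⟨T, hT, h2⟩ := part_T K hG hp.1 (n := 1) (k := k) (m := m) (by omega)
        fun s t hst h3 => hH s t (by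
          rw [lt_abs] at h3
          omega)
      obtain ⟨T', hT', h3, h4⟩ := descend A hX hT
      exact ⟨T', hT', fun ω => (h3 ω).trans (h2 ω), h4 z hz⟩
    · obtain ⟨n, k, hnk, hk, hL⟩ := large_weight (i := i) (m := m) (d := 1) (by omega) (by omega)
      obtain ⟨T, hT, h2⟩ := part_T K hG hp.1 hnk fun s t hst h3 => hH s t (by
        have := hL s t hst h3
        omega)
      exact ⟨T, Wt_deg K hT, h2, Wt_neg K hO hT hzd (by omega)⟩

end

end Pool.Agent.N178.MU
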