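import Mathlib
import Pool.Agent.N178.MU.AJ

/-!
# Homologically trivial cycles if the target of the Abel–Jacobi map is zero: the proof
-/

set_option linter.unusedSectionVars false

namespace Pool.Agent.N178.MU

open Module Pool.Agent.Y90 Pool.Agent.R915 Pool.Agent.N178.BL Pool.Agent.N178.GB
open Pool.Agent.N178.HX (Cor GHC)

noncomputable section

variable {C : ChowTheory} {K : Projectors C} {X Y O : AV} {p : C.Co X X}

/-- The complexification of zero is zero, so all Hodge numbers of weight `m` are zero if the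
cohomology is zero. -/
theorem zero_of_img {m : ℕ} (h : C.img p m = ⊥) (s t : ℕ) (hst : s + t = m) :
    HodgeZero p s t := by
  subst hst
  unfold HodgeZero
  rw [h, Pool.Agent.N178.AJ.complexify_bot, bot_inf_eq]

/-- **Homologically trivial cycles are zero** if the part of weight `2 i + 1` is zero. -/
theorem hom_zero (hG : GHC C.alg X) (K : Projectors C) (hO : finrank ℚ O.H = 0)
    (hp : C.IsMotive p) {i : ℤ} (h1 : ∀ m : ℕ, (m : ℤ) = 2 * i + 1 → C.img p m = ⊥)
    (hH : ∀ s t : ℕ, (s ≤ i ∧ i + 2 ≤ t) ∨ (t ≤ i ∧ i + 2 ≤ s) → HodgeZero p s t)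
    {z : C.Co O X} (hz : C.IsDeg i z) (h0 : ∀ ω, C.pb z ω = 0) : C.o p z = 0 := by
  rcases lt_or_ge i 0 with hi | hi
  · rw [C.deg_neg z hz (by rw [hO]; push_cast; omega), o_zero]
  refine of_parts hp (H := fun z => C.IsDeg i z ∧ ∀ ω, C.pb z ω = 0) (G := fun z => z = 0)
    (fun B z hB h => ⟨by
      have h1 := C.deg_o z B h.1 hB
      rwa [add_zero] at h1, fun ω => by rw [C.pb_o, h.2]⟩) rfl
    (fun z z' h h' => by rw [h, h', add_zero]) (fun f z h => by rw [h, o_zero]) (fun m => ?_)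
    ⟨hz, h0⟩
  by_cases hm : (m : ℤ) ≤ 2 * i
  · obtain ⟨n, k, hnk, h1, hL⟩ := small_weight hm
    obtain ⟨T, hT, h2⟩ := part_T K hG hp.1 hnk fun s t hst h3 => hH s t (by
      have := hL s t hst h3
      omega)
    exact ⟨T, Wt_deg K hT, h2, fun z hz => Wt_zero K hO hT hz.1 h1 (by omega) fun _ => hz.2⟩
  · by_cases hm1 : (m : ℤ) = 2 * i + 1
    · refine ⟨0, deg_zero hp.1, fun ω => ?_, fun z _ => zero_o z⟩
      rw [zero_pb, inc_zero hp.1 fun s t hst => zero_of_img (h1 m hm1) s t hst]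
    · obtain ⟨n, k, hnk, hk, hL⟩ := large_weight (i := i) (m := m) (d := 1) (by omega) (by omega)
      obtain ⟨T, hT, h2⟩ := part_T K hG hp.1 hnk fun s t hst h3 => hH s t (by
        have := hL s t hst h3
        omega)
      exact ⟨T, Wt_deg K hT, h2, fun z hz => Wt_neg K hO hT hz.1 (by omega)⟩

end

end Pool.Agent.N178.MU
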