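import Mathlib
import Pool.Agent.N178.MU.GH
import Pool.Agent.N178.MU.Pad

/-!
# Refined Chow–Künneth decompositions: the proofs
-/

set_option linter.unusedSectionVars false

namespace Pool.Agent.N178.MU

open Module Pool.Agent.Y90 Pool.Agent.R915 Pool.Agent.N178.BL Pool.Agent.N178.GB
open Pool.Agent.N178.AJ (FacP FacP_deg IxP RgP exists_fixP neg_pb)
open Pool.Agent.W546.GHC (IsHodgeSubstructure LevelLE complexify typeForms)
open Pool.Agent.N178.HX (Cor GHC)

noncomputable section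

variable {C : ChowTheory} {K : Projectors C} {X Y O : AV} {p : C.Co X X}

/-! ### The ring of endomorphisms -/

/-- The endomorphisms of the motive `(X, p)`. -/
def EndM (p : C.Co X X) (hp : C.IsMotive p) : AddSubgroup (C.Co X X) where
  carrier := {f | C.IsDeg 0 f ∧ C.o p f = f ∧ C.o f p = f}
  add_mem' := fun {a b} ha hb => ⟨deg_add ha.1 hb.1, by rw [C.o_add, ha.2.1, hb.2.1], by
    rw [C.add_o, ha.2.2, hb.2.2]⟩
  zero_mem' := ⟨deg_zero hp.1, o_zero _, zero_o _⟩
  neg_mem' := fun {a} ha => ⟨deg_neg' ha.1, by rw [o_neg, ha.2.1], by rw [neg_o, ha.2.2]⟩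

variable (hp : C.IsMotive p)

instance EndM.ring : Ring (EndM p hp) :=
  { (inferInstance : AddCommGroup (EndM p hp)) with
    mul := fun f g => ⟨C.o f.1 g.1, by
      have h := C.deg_o g.1 f.1 g.2.1 f.2.1
      rwa [add_zero] at h, by rw [C.assoc, f.2.2.1], by rw [← C.assoc, g.2.2.2]⟩
    one := ⟨p, hp.1, hp.2, hp.2⟩
    mul_assoc := fun f g h => Subtype.ext (C.assoc h.1 g.1 f.1).symm
    one_mul := fun f => Subtype.ext f.2.2.1
    mul_one := fun f => Subtype.ext f.2.2.2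
    left_distrib := fun f g h => Subtype.ext (C.o_add f.1 g.1 h.1)
    right_distrib := fun f g h => Subtype.ext (C.add_o f.1 g.1 h.1)
    zero_mul := fun f => Subtype.ext (zero_o f.1)
    mul_zero := fun f => Subtype.ext (o_zero f.1) }

theorem EndM.mul_val (f g : EndM p hp) : (f * g).1 = C.o f.1 g.1 := rfl
theorem EndM.one_val : (1 : EndM p hp).1 = p := rfl

theorem EndM.pb_p (f : EndM p hp) (x : HT X) : C.pb f.1 (C.pb p x) = C.pb f.1 x := by
  rw [← C.pb_o, f.2.2.1]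

theorem EndM.p_pb (f : EndM p hp) (x : HT X) : C.pb p (C.pb f.1 x) = C.pb f.1 x := by
  rw [← C.pb_o, f.2.2.2]

/-- The action on the cohomology of the motive. -/
def EndM.act (f : EndM p hp) : LinearMap.range (pbL p) →ₗ[ℚ] LinearMap.range (pbL p) :=
  (pbL f.1).restrict fun x _ => ⟨pbL f.1 x, EndM.p_pb hp f x⟩

theorem EndM.act_apply (f : EndM p hp) (x : LinearMap.range (pbL p)) :
    ((EndM.act hp f x : LinearMap.range (pbL p)) : HT X) = C.pb f.1 x.1 := rfl

/-- The action as a ring homomorphism. -/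
def phi : EndM p hp →+* (Module.End ℚ (LinearMap.range (pbL p)))ᵐᵒᵖ where
  toFun f := MulOpposite.op (EndM.act hp f)
  map_one' := by
    congr 1
    ext x
    obtain ⟨x, y, rfl⟩ := x
    change C.pb p (C.pb p y) = C.pb p y
    rw [← C.pb_o, hp.2]
  map_mul' f g := by
    rw [← MulOpposite.op_mul]
    congr 1
    ext x
    change C.pb (C.o f.1 g.1) x.1 = C.pb g.1 (C.pb f.1 x.1)
    rw [C.pb_o]
  map_zero' := by
    rw [← MulOpposite.op_zero]
    congr 1
    ext x
    exact zero_pb x.1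
  map_add' f g := by
    rw [← MulOpposite.op_add]
    congr 1
    ext x
    exact C.add_pb f.1 g.1 x.1

theorem phi_eq {f g : EndM p hp} : phi hp f = phi hp g ↔ ∀ x, C.pb f.1 x = C.pb g.1 x := by
  constructor
  · intro h x
    have h1 : EndM.act hp f = EndM.act hp g := MulOpposite.op_injective h
    have h2 := congrArg (fun a => ((a ⟨C.pb p x, x, rfl⟩ : LinearMap.range (pbL p)) : HT X)) h1
    change C.pb f.1 (C.pb p x) = C.pb g.1 (C.pb p x) at h2
    rwa [EndM.pb_p, EndM.pb_p] at h2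
  · intro h
    refine congrArg MulOpposite.op ?_
    ext x
    exact h x.1

theorem ker_phi (f : EndM p hp) (hf : f ∈ RingHom.ker (phi hp)) : IsNilpotent f := by
  have h : ∀ x, C.pb f.1 x = 0 := by
    have h1 : phi hp f = phi hp 0 := by rw [map_zero]; exact hf
    intro x
    rw [(phi_eq hp).1 h1 x]
    exact zero_pb x
  obtain ⟨N, hN⟩ := C.nilpotent f.1 f.2.1 h
  refine ⟨N, Subtype.ext ?_⟩
  have key : ∀ k : ℕ, (f ^ k).1 = C.o ((fun g : C.Co X X => C.o f.1 g)^[k] (C.one X)) p := by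
    intro k
    induction k with
    | zero =>
      rw [Function.iterate_zero, id_eq, C.one_o, pow_zero]
      rfl
    | succ k ih => rw [Function.iterate_succ_apply', ← C.assoc, ← ih, pow_succ']; rfl
  rw [key, hN, zero_o]
  rfl

/-! ### Elements of `Wt` -/

theorem Wt_conc {n k : ℕ} {T : C.Co X X} (hT : T ∈ Wt K X n k) (ω : HT X) {l : ℕ}
    (hl : l ≠ n + 2 * k) : C.pb T ω l = 0 := by
  unfold Wt at hT
  induction hT using AddSubgroup.closure_induction with
  | mem q hq =>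
    obtain ⟨Y, Γ, κ, h3, h4, rfl⟩ := hq
    rw [C.pb_o, C.pb_o]
    have h1 := K.graded _ Γ h3 (C.pb (K.pr Y n) (C.pb κ ω)) 0 l fun a ha => by
      exact (K.kunneth Y n _).2 a (by rintro rfl; omega)
    rw [h1, pb_zero]
    rfl
  | zero => rw [zero_pb]; rfl
  | add a b _ _ ha hb =>
    rw [C.add_pb]
    change C.pb a ω l + C.pb b ω l = 0
    rw [ha, hb, add_zero]
  | neg a _ ha =>
    rw [neg_pb]
    change -C.pb a ω l = 0
    rw [ha, neg_zero]

theorem Wt_dep {n k : ℕ} {T : C.Co X X} (hT : T ∈ Wt K X n k) {ω : HT X}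
    (hω : ω (n + 2 * k) = 0) : C.pb T ω = 0 := by
  unfold Wt at hT
  induction hT using AddSubgroup.closure_induction with
  | mem q hq =>
    obtain ⟨Y, Γ, κ, h3, h4, rfl⟩ := hq
    rw [C.pb_o, C.pb_o]
    have h0 : C.pb κ ω n = 0 := by
      have h1 := K.graded _ κ h4 ω 0 n fun a ha => by
        obtain rfl : a = n + 2 * k := by omega
        exact hω
      rw [h1, pb_zero]
      rfl
    have h2 : C.pb (K.pr Y n) (C.pb κ ω) = 0 := by
      funext l
      by_cases hl : l = n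
      · subst hl
        rw [(K.kunneth Y l _).1, h0]
        rfl
      · rw [(K.kunneth Y n _).2 l hl]
        rfl
    rw [h2, pb_zero]
  | zero => rw [zero_pb]
  | add a b _ _ ha hb => rw [C.add_pb, ha, hb, add_zero]
  | neg a _ ha => rw [neg_pb, ha, neg_zero]

/-- The sum of the ranges. -/
def Ran (K : Projectors C) (X : AV) (n k : ℕ) : Submodule ℚ (HT X) :=
  ⨆ i : IxP (PrP K X n k), RgP i

theorem pb_mem_Ran {n k : ℕ} {q : C.Co X X} (hq : q ∈ FacP X (PrP K X n k)) (y : HT X) :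
    C.pb q y ∈ Ran K X n k := by
  unfold FacP at hq
  induction hq using AddSubgroup.closure_induction with
  | mem q hq =>
    obtain ⟨Y, r, Γ, κ, h, h2, h3, rfl⟩ := hq
    rw [C.pb_o]
    exact Submodule.mem_iSup_of_mem (⟨Y, r, Γ, h, h2⟩ : IxP (PrP K X n k)) ⟨_, rfl⟩
  | zero => rw [zero_pb]; exact Submodule.zero_mem _
  | add a b _ _ ha hb => rw [C.add_pb]; exact Submodule.add_mem _ ha hb
  | neg a _ ha => rw [neg_pb]; exact Submodule.neg_mem _ ha

theorem Ran_conc {n k : ℕ} {x : HT X} (hx : x ∈ Ran K X n k) {l : ℕ} (hl : l ≠ n + 2 * k) :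
    x l = 0 := by
  unfold Ran at hx
  induction hx using Submodule.iSup_induction' with
  | mem i x hx =>
    obtain ⟨Y, r, Γ, ⟨rfl, Γ₀, h1, rfl⟩, h2⟩ := i
    obtain ⟨ω, rfl⟩ := hx
    change C.pb (C.o (K.pr Y n) Γ₀) ω l = 0
    rw [C.pb_o]
    have h3 := K.graded _ Γ₀ h1 (C.pb (K.pr Y n) ω) 0 l fun a ha => by
      exact (K.kunneth Y n _).2 a (by rintro rfl; omega)
    rw [h3, pb_zero]
    rfl
  | zero => rfl
  | add x y _ _ hx hy =>
    change x l + y l = 0
    rw [hx, hy, add_zero]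

/-- Spaces of forms are finitely generated. -/
theorem forms_fg {m : ℕ} (W : Submodule ℚ (X.H [⋀^Fin m]→ₗ[ℚ] ℚ)) : W.FG := by
  let L : (X.H [⋀^Fin m]→ₗ[ℚ] ℚ) →ₗ[ℚ] MultilinearMap ℚ (fun _ : Fin m => X.H) ℚ :=
    { toFun := fun f => f.toMultilinearMap
      map_add' := fun _ _ => rfl
      map_smul' := fun _ _ => rfl }
  have : FiniteDimensional ℚ (X.H [⋀^Fin m]→ₗ[ℚ] ℚ) :=
    FiniteDimensional.of_injective L fun f g h => AlternatingMap.coe_multilinearMap_injective h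
  exact IsNoetherian.noetherian _

theorem pb_sub' (f : C.Co X Y) (x y : HT Y) : C.pb f (x - y) = C.pb f x - C.pb f y :=
  (pbL f).map_sub x y

/-- The next projector. -/
theorem step (K : Projectors C) (E : EndM p hp) (hE : phi hp E * phi hp E = phi hp E) (n k : ℕ) :
    ∃ f : EndM p hp, f.1 ∈ Wt K X n k ∧ phi hp f * phi hp f = phi hp f ∧
      phi hp E * phi hp f = 0 ∧ phi hp f * phi hp E = 0 ∧
      ∀ w ∈ Ran K X n k, C.pb (E + f).1 w = C.pb p w := by
  obtain ⟨D, hD⟩ : ∃ D : EndM p hp, D = 1 - E := ⟨_, rfl⟩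
  have hE' : ∀ x, C.pb E.1 (C.pb E.1 x) = C.pb E.1 x := by
    intro x
    rw [← map_mul, phi_eq] at hE
    have h := hE x
    rwa [EndM.mul_val, C.pb_o] at h
  have hDv : D.1 = p - E.1 := by rw [hD]; rfl
  have hDpb : ∀ x, C.pb D.1 x = C.pb p x - C.pb E.1 x := fun x => by rw [hDv, pb_sub]
  have hED : ∀ x, C.pb E.1 (C.pb D.1 x) = 0 := fun x => by
    rw [hDpb, pb_sub', EndM.pb_p, hE', sub_self]
  have hDE : ∀ x, C.pb D.1 (C.pb E.1 x) = 0 := fun x => by
    rw [hDpb, EndM.p_pb, hE', sub_self]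
  have hDD : ∀ x, C.pb D.1 (C.pb D.1 x) = C.pb D.1 x := by
    intro x
    rw [hDpb (C.pb D.1 x), EndM.p_pb, hED, sub_zero]
  obtain ⟨U, hU⟩ : ∃ U : Submodule ℚ (HT X), U = (Ran K X n k).map (pbL D.1) := ⟨_, rfl⟩
  have hURan : U ≤ Ran K X n k := by
    rw [hU]
    rintro _ ⟨w, hw, rfl⟩
    change C.pb D.1 w ∈ Ran K X n k
    change w ∈ Ran K X n k at hw
    unfold Ran at hw
    induction hw using Submodule.iSup_induction' with
    | mem i x hx =>
      obtain ⟨Y, r, Γ, h, h2⟩ := i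
      obtain ⟨ω, rfl⟩ := hx
      have h3 : C.IsDeg (-r) (C.o Γ D.1) := by
        have h4 := C.deg_o D.1 Γ D.2.1 h2
        rwa [zero_add] at h4
      exact Submodule.mem_iSup_of_mem
        (⟨Y, r, C.o Γ D.1, PrP_o K Y r Γ D.1 D.2.1 h, h3⟩ : IxP (PrP K X n k)) ⟨ω, C.pb_o _ _ _⟩
    | zero => rw [pb_zero]; exact Submodule.zero_mem _
    | add x y _ _ hx hy => rw [C.pb_add]; exact Submodule.add_mem _ hx hy
  have hUeq : U = (U.comap (inc X (n + 2 * k))).map (inc X (n + 2 * k)) := by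
    refine le_antisymm (fun x hx => ?_) (Submodule.map_comap_le _ _)
    have h1 : x = inc X (n + 2 * k) (x (n + 2 * k)) :=
      eq_inc rfl fun l hl => Ran_conc (hURan hx) hl
    refine ⟨x (n + 2 * k), ?_, h1.symm⟩
    change inc X (n + 2 * k) (x (n + 2 * k)) ∈ U
    rwa [← h1]
  have hfg : U.FG := by
    rw [hUeq]
    exact (forms_fg _).map _
  obtain ⟨q, hq, hfix⟩ := exists_fixP (P := PrP K X n k) (PrP_o K) hfg hURan
  have hqd := FacP_deg hq
  have hDqD : C.IsDeg 0 (C.o D.1 (C.o q D.1)) := by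
    have h := C.deg_o _ _ (C.deg_o _ _ D.2.1 hqd) D.2.1
    rwa [add_zero, add_zero] at h
  obtain ⟨f, hf⟩ : ∃ f : EndM p hp, f.1 = C.o D.1 (C.o q D.1) :=
    ⟨⟨_, hDqD, by rw [C.assoc, D.2.2.1], by rw [← C.assoc, ← C.assoc, D.2.2.2]⟩, rfl⟩
  have hfpb : ∀ x, C.pb f.1 x = C.pb D.1 (C.pb q (C.pb D.1 x)) := fun x => by
    rw [hf, C.pb_o, C.pb_o]
  have hfU : ∀ x, C.pb f.1 x ∈ U := by
    intro x
    rw [hfpb, hU]
    exact ⟨_, pb_mem_Ran hq _, rfl⟩
  have hDU : ∀ v ∈ U, C.pb D.1 v = v := by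
    intro v hv
    rw [hU] at hv
    obtain ⟨w, -, rfl⟩ := hv
    exact hDD w
  have hfv : ∀ v ∈ U, C.pb f.1 v = v := fun v hv => by
    rw [hfpb, hDU v hv, hfix v hv, hDU v hv]
  refine ⟨f, ?_, ?_, ?_, ?_, fun w hw => ?_⟩
  · rw [hf, C.assoc]
    exact Wt_right K (mem_Wt K D.2.1 hq) D.2.1
  · rw [← map_mul, phi_eq]
    intro x
    rw [EndM.mul_val, C.pb_o, hfv _ (hfU x)]
  · rw [← map_mul, ← map_zero (phi hp), phi_eq]
    intro x
    rw [EndM.mul_val, C.pb_o, hfpb, hDE, pb_zero, pb_zero]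
    exact (zero_pb x).symm
  · rw [← map_mul, ← map_zero (phi hp), phi_eq]
    intro x
    rw [EndM.mul_val, C.pb_o, hfpb, hED]
    exact (zero_pb x).symm
  · have h1 : C.pb D.1 w ∈ U := by
      rw [hU]
      exact ⟨w, hw, rfl⟩
    change C.pb (E.1 + f.1) w = _
    rw [C.add_pb, hfpb, hfix _ h1, hDU _ h1, hDpb, add_sub_cancel]

/-! ### The sequence of projectors -/

open Classical in
/-- The next projector. -/
def next (K : Projectors C) (E : EndM p hp) (n k : ℕ) : EndM p hp :=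
  if h : phi hp E * phi hp E = phi hp E then (step hp K E h n k).choose else 0

/-- The sums. -/
def Es (K : Projectors C) (m : ℕ) : ℕ → EndM p hp
  | 0 => 0
  | j + 1 => Es K m j + next hp K (Es K m j) (m - 2 * (m / 2 - j)) (m / 2 - j)

/-- The projectors. -/
def Fs (K : Projectors C) (m j : ℕ) : EndM p hp :=
  next hp K (Es hp K m j) (m - 2 * (m / 2 - j)) (m / 2 - j)

theorem Es_succ (m j : ℕ) : Es hp K m (j + 1) = Es hp K m j + Fs hp K m j := rfl

theorem facts (m : ℕ) : ∀ j, phi hp (Es hp K m j) * phi hp (Es hp K m j) = phi hp (Es hp K m j) ∧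
    (Fs hp K m j).1 ∈ Wt K X (m - 2 * (m / 2 - j)) (m / 2 - j) ∧
    phi hp (Fs hp K m j) * phi hp (Fs hp K m j) = phi hp (Fs hp K m j) ∧
    phi hp (Es hp K m j) * phi hp (Fs hp K m j) = 0 ∧
    phi hp (Fs hp K m j) * phi hp (Es hp K m j) = 0 ∧
    ∀ w ∈ Ran K X (m - 2 * (m / 2 - j)) (m / 2 - j),
      C.pb (Es hp K m (j + 1)).1 w = C.pb p w := by
  have key : ∀ j, phi hp (Es hp K m j) * phi hp (Es hp K m j) = phi hp (Es hp K m j) →
      (Fs hp K m j).1 ∈ Wt K X (m - 2 * (m / 2 - j)) (m / 2 - j) ∧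
      phi hp (Fs hp K m j) * phi hp (Fs hp K m j) = phi hp (Fs hp K m j) ∧
      phi hp (Es hp K m j) * phi hp (Fs hp K m j) = 0 ∧
      phi hp (Fs hp K m j) * phi hp (Es hp K m j) = 0 ∧
      ∀ w ∈ Ran K X (m - 2 * (m / 2 - j)) (m / 2 - j),
        C.pb (Es hp K m (j + 1)).1 w = C.pb p w := by
    intro j hj
    have h1 : Fs hp K m j = (step hp K (Es hp K m j) hj (m - 2 * (m / 2 - j)) (m / 2 - j)).choose :=
      dif_pos hj
    have h2 := (step hp K (Es hp K m j) hj (m - 2 * (m / 2 - j)) (m / 2 - j)).choose_spec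
    rw [← h1] at h2
    exact h2
  intro j
  induction j with
  | zero =>
    have h0 : phi hp (Es hp K m 0) * phi hp (Es hp K m 0) = phi hp (Es hp K m 0) := by
      change phi hp 0 * phi hp 0 = phi hp 0
      rw [map_zero, mul_zero]
    exact ⟨h0, key 0 h0⟩
  | succ j ih =>
    obtain ⟨h1, -, h3, h4, h5, -⟩ := ih
    have h0 : phi hp (Es hp K m (j + 1)) * phi hp (Es hp K m (j + 1)) =
        phi hp (Es hp K m (j + 1)) := by
      rw [Es_succ, map_add, add_mul, mul_add, mul_add, h1, h3, h4, h5, add_zero, zero_add]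
    exact ⟨h0, key _ h0⟩

theorem orth (m : ℕ) {i j : ℕ} (hij : i < j) :
    phi hp (Es hp K m j) * phi hp (Fs hp K m i) = phi hp (Fs hp K m i) ∧
    phi hp (Fs hp K m i) * phi hp (Es hp K m j) = phi hp (Fs hp K m i) := by
  induction j, hij using Nat.le_induction with
  | base =>
    obtain ⟨-, -, h3, h4, h5, -⟩ := facts (K := K) hp m i
    rw [Es_succ, map_add, add_mul, mul_add, h3, h4, h5, zero_add]
    exact ⟨rfl, rfl⟩
  | succ j _ ih =>
    obtain ⟨-, -, -, h4, h5, -⟩ := facts (K := K) hp m j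
    obtain ⟨ih1, ih2⟩ := ih
    have h6 : phi hp (Fs hp K m j) * phi hp (Fs hp K m i) = 0 := by
      rw [← ih1, ← mul_assoc, h5, zero_mul]
    have h7 : phi hp (Fs hp K m i) * phi hp (Fs hp K m j) = 0 := by
      rw [← ih2, mul_assoc, h4, mul_zero]
    rw [Es_succ, map_add, add_mul, mul_add, ih1, ih2, h6, h7, add_zero]
    exact ⟨rfl, rfl⟩

theorem orth' (m : ℕ) {i j : ℕ} (hij : i < j) :
    phi hp (Fs hp K m j) * phi hp (Fs hp K m i) = 0 ∧
    phi hp (Fs hp K m i) * phi hp (Fs hp K m j) = 0 := by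
  obtain ⟨-, -, -, h4, h5, -⟩ := facts (K := K) hp m j
  obtain ⟨ih1, ih2⟩ := orth (K := K) hp m hij
  constructor
  · rw [← ih1, ← mul_assoc, h5, zero_mul]
  · rw [← ih2, mul_assoc, h4, mul_zero]

theorem Es_sum (m j : ℕ) : Es hp K m j = ∑ i ∈ Finset.range j, Fs hp K m i := by
  induction j with
  | zero => rfl
  | succ j ih => rw [Es_succ, ih, Finset.sum_range_succ]

theorem weight_eq (m j : ℕ) : m - 2 * (m / 2 - j) + 2 * (m / 2 - j) = m := by omega

theorem Fs_conc (m j : ℕ) (x : HT X) {l : ℕ} (hl : l ≠ m) : C.pb (Fs hp K m j).1 x l = 0 :=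
  Wt_conc (facts (K := K) hp m j).2.1 x (by rw [weight_eq]; exact hl)

theorem Fs_dep (m j : ℕ) {x : HT X} (hx : x m = 0) : C.pb (Fs hp K m j).1 x = 0 :=
  Wt_dep (facts (K := K) hp m j).2.1 (by rw [weight_eq]; exact hx)

theorem orth_ne {m m' : ℕ} (hm : m ≠ m') (j j' : ℕ) :
    phi hp (Fs hp K m j) * phi hp (Fs hp K m' j') = 0 := by
  rw [← map_mul, ← map_zero (phi hp), phi_eq]
  intro x
  rw [EndM.mul_val, C.pb_o, Fs_dep hp m' j' (Fs_conc hp m j x hm.symm)]
  exact (zero_pb x).symm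

theorem coe_sum {ι : Type} (s : Finset ι) (f : ι → EndM p hp) :
    (∑ i ∈ s, f i).1 = ∑ i ∈ s, (f i).1 := by
  classical
  induction s using Finset.induction_on with
  | empty => rfl
  | insert i s hi ih =>
    rw [Finset.sum_insert hi, Finset.sum_insert hi, ← ih]
    rfl

theorem Es_dep (m j : ℕ) {x : HT X} (hx : x m = 0) : C.pb (Es hp K m j).1 x = 0 := by
  rw [Es_sum, coe_sum, pb_sum]
  exact Finset.sum_eq_zero fun i _ => Fs_dep hp m i hx

/-- The classes in the cohomology of `X`. -/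
theorem inc_mem_Ran (m : ℕ) (θ : X.H [⋀^Fin m]→ₗ[ℚ] ℚ) : inc X m θ ∈ Ran K X m 0 := by
  have h1 : C.IsDeg (-((0 : ℕ) : ℤ)) (C.one X) := by
    rw [Nat.cast_zero, neg_zero]
    exact C.deg_one X
  have h2 : C.IsDeg (-((0 : ℕ) : ℤ)) (C.o (K.pr X m) (C.one X)) := by
    rw [C.o_one, Nat.cast_zero, neg_zero]
    exact K.deg X m
  refine Submodule.mem_iSup_of_mem
    (⟨X, (0 : ℕ), C.o (K.pr X m) (C.one X), ⟨rfl, C.one X, h1, rfl⟩, h2⟩ : IxP (PrP K X m 0))
    ⟨inc X m θ, ?_⟩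
  change C.pb (C.o (K.pr X m) (C.one X)) (inc X m θ) = inc X m θ
  rw [C.o_one]
  refine eq_inc ?_ (K.kunneth X m _).2
  rw [(K.kunneth X m _).1, inc_same]

/-- The sum over all weights is the identity of the motive. -/
theorem sum_Es : phi hp (∑ m ∈ Finset.range (finrank ℚ X.H + 1), Es hp K m (m / 2 + 1)) = 1 := by
  rw [← map_one (phi hp), phi_eq]
  intro x
  rw [coe_sum, pb_sum, EndM.one_val]
  have h1 : ∀ m, C.pb (Es hp K m (m / 2 + 1)).1 x = C.pb p (inc X m (x m)) := by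
    intro m
    have h2 : C.pb (Es hp K m (m / 2 + 1)).1 (x - inc X m (x m)) = 0 := by
      refine Es_dep hp m _ ?_
      change x m - inc X m (x m) m = 0
      rw [inc_same, sub_self]
    rw [pb_sub', sub_eq_zero] at h2
    rw [h2]
    refine (facts (K := K) hp m (m / 2)).2.2.2.2.2 _ ?_
    rw [Nat.sub_self, mul_zero, Nat.sub_zero]
    exact inc_mem_Ran m _
  have h2 : C.pb p x = ∑ m ∈ Finset.range (finrank ℚ X.H + 1), C.pb p (inc X m (x m)) := by
    have h3 : pbL p (∑ m ∈ Finset.range (finrank ℚ X.H + 1), inc X m (x m)) =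
        ∑ m ∈ Finset.range (finrank ℚ X.H + 1), pbL p (inc X m (x m)) := map_sum _ _ _
    rw [← sum_inc] at h3
    exact h3
  rw [h2]
  exact Finset.sum_congr rfl fun m _ => h1 m

/-- The index set. -/
abbrev Ix (X : AV) : Type := Σ m : Fin (finrank ℚ X.H + 1), Fin ((m : ℕ) / 2 + 1)

theorem complete : CompleteOrthogonalIdempotents fun i : Ix X => phi hp (Fs hp K i.1 i.2) where
  idem := fun i => (facts (K := K) hp i.1 i.2).2.2.1
  ortho := by
    rintro ⟨m, j⟩ ⟨m', j'⟩ hij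
    change phi hp (Fs hp K m j) * phi hp (Fs hp K m' j') = 0
    by_cases hm : (m : ℕ) = m'
    · obtain rfl : m = m' := Fin.ext hm
      have hj : (j : ℕ) ≠ j' := by
        intro h
        apply hij
        obtain rfl : j = j' := Fin.ext h
        rfl
      rcases lt_or_gt_of_ne hj with h | h
      · exact (orth' (K := K) hp m h).2
      · exact (orth' (K := K) hp m h).1
    · exact orth_ne hp hm j j'
  complete := by
    rw [Fintype.sum_sigma, ← sum_Es (K := K) hp, ← Fin.sum_univ_eq_sum_range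
      (fun m => Es hp K m (m / 2 + 1)), map_sum]
    refine Finset.sum_congr rfl fun m _ => ?_
    rw [Es_sum, ← Fin.sum_univ_eq_sum_range (fun j => Fs hp K m j), map_sum]

/-- The generalized Hodge conjecture. -/
theorem mem_Ran (hG : GHC C.alg X) {n k m : ℕ} (hm : m = n + 2 * k)
    {V : Submodule ℚ (X.H [⋀^Fin m]→ₗ[ℚ] ℚ)} (hV : IsHodgeSubstructure X.per V)
    (hL : ∀ s t : ℕ, s + t = m → (n : ℤ) < |(s : ℤ) - t| →
      complexify X.per V ⊓ typeForms X.T m s t = ⊥) (v : X.H [⋀^Fin m]→ₗ[ℚ] ℚ) (hv : v ∈ V) :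
    inc X m v ∈ Ran K X n k := by
  subst hm
  have hL' : LevelLE X.per V n := by
    intro s t hst hne
    by_contra h
    exact hne (hL s t hst (not_le.1 h))
  have h1 := hG n k _ hV hL' hv
  unfold Cor at h1
  clear hv
  unfold Ran
  induction h1 using Submodule.span_induction with
  | mem f hf =>
    obtain ⟨Y, Q, a, b, τ, y, ha, hb, hab, hτ, hfx⟩ := hf
    obtain ⟨Γ, hΓ, h2⟩ := C.classes a b ha hb hab n (n + 2 * k) k rfl τ hτ
    obtain ⟨ω, hω, hω'⟩ := h2 y f hfx
    have hd : C.IsDeg (-(k : ℤ)) (C.o (K.pr Y n) Γ) := by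
      have h4 := C.deg_o Γ _ hΓ (K.deg Y n)
      rwa [add_zero] at h4
    have h3 : inc X (n + 2 * k) f ∈
        RgP (⟨Y, k, C.o (K.pr Y n) Γ, ⟨rfl, Γ, hΓ, rfl⟩, hd⟩ : IxP (PrP K X n k)) := by
      refine ⟨ω, ?_⟩
      change C.pb (C.o (K.pr Y n) Γ) ω = _
      rw [C.pb_o]
      refine eq_inc ?_ fun l hl => ?_
      · rw [← hω]
        refine K.graded (-k) Γ hΓ _ _ _ fun a ha => ?_
        obtain rfl : a = n := by
          push_cast at ha
          omega
        exact (K.kunneth Y _ ω).1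
      · have h5 : C.pb Γ (C.pb (K.pr Y n) ω) l = C.pb Γ 0 l := by
          refine K.graded (-k) Γ hΓ _ _ _ fun a ha => ?_
          exact (K.kunneth Y _ ω).2 a (by omega)
        rw [h5, pb_zero]
        rfl
    exact Submodule.mem_iSup_of_mem _ h3
  | zero => rw [map_zero]; exact Submodule.zero_mem _
  | add f g _ _ hf hg => rw [map_add]; exact Submodule.add_mem _ hf hg
  | smul r f _ hf => rw [map_smul]; exact Submodule.smul_mem _ _ hf

include hp in
/-- There are no sub-Hodge structures of larger coniveau. -/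
theorem exact_level (hG : GHC C.alg X) (K : Projectors C) {m j : ℕ} (hj : j < m / 2 + 1)
    {Q : C.Co X X} (hQ : ∀ x, C.pb Q x = C.pb (Fs hp K m j).1 x)
    (W : Submodule ℚ (X.H [⋀^Fin m]→ₗ[ℚ] ℚ)) (hW : IsHodgeSubstructure X.per W)
    (hWP : W ≤ C.img Q m)
    (hWk : ∀ s t : ℕ, s + t = m → s ≤ m / 2 - j ∨ t ≤ m / 2 - j →
      complexify X.per W ⊓ typeForms X.T m s t = ⊥) : W = ⊥ := by
  rcases Nat.eq_zero_or_pos j with h0 | h0
  · -- all Hodge numbers are zero
    refine eq_bot_of ?_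
    have h2 : complexify X.per W =
      ⨆ (s : ℕ) (t : ℕ) (_ : s + t = m), complexify X.per W ⊓ typeForms X.T m s t := hW
    rw [h2, eq_bot_iff]
    refine iSup_le fun s => iSup_le fun t => iSup_le fun hst => ?_
    exact (hWk s t hst (by omega)).le
  · obtain ⟨j', rfl⟩ : ∃ j', j = j' + 1 := ⟨j - 1, by omega⟩
    have hrange : ∀ v ∈ C.img Q m, ∃ x, C.pb Q x = inc X m v := by
      intro v hv
      have h1 : inc X m v ∈ LinearMap.range (pbL Q) := by
        unfold ChowTheory.img at hv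
        induction hv using Submodule.span_induction with
        | mem f hf =>
          obtain ⟨ω, rfl⟩ := hf
          refine ⟨ω, eq_inc rfl fun l hl => ?_⟩
          change C.pb Q ω l = 0
          rw [hQ]
          exact Fs_conc hp _ _ ω hl
        | zero => rw [map_zero]; exact Submodule.zero_mem _
        | add f g _ _ hf hg => rw [map_add]; exact Submodule.add_mem _ hf hg
        | smul r f _ hf => rw [map_smul]; exact Submodule.smul_mem _ _ hf
      exact h1
    rw [Submodule.eq_bot_iff]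
    intro v hv
    have h1 : inc X m v ∈ Ran K X (m - 2 * (m / 2 - j')) (m / 2 - j') :=
      mem_Ran hG (by omega) hW (fun s t hst h3 => hWk s t hst (by
        rw [lt_abs] at h3
        omega)) v hv
    have h2 := (facts (K := K) hp m j').2.2.2.2.2 _ h1
    obtain ⟨x, hx⟩ := hrange v (hWP hv)
    have h4 : C.pb p (inc X m v) = inc X m v := by rw [← hx, hQ, EndM.p_pb]
    have h5 : C.pb (Es hp K m (j' + 1)).1 (inc X m v) = 0 := by
      have h6 := (facts (K := K) hp m (j' + 1)).2.2.2.2.1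
      rw [← map_mul, ← map_zero (phi hp), phi_eq] at h6
      have h7 := h6 x
      rw [EndM.mul_val, C.pb_o] at h7
      rw [← hx, hQ]
      exact h7.trans (zero_pb x)
    rw [h4, h5] at h2
    have h6 := congrFun h2 m
    rw [inc_same] at h6
    exact h6.symm

include hp in
/-- **Refined Chow–Künneth decompositions.** -/
theorem refined (hG : GHC C.alg X) (K : Projectors C) :
    ∃ (ι : Type) (_ : Fintype ι) (m k : ι → ℕ) (P : ι → C.Co X X),
      (∀ i j, m i = m j → k i = k j → i = j) ∧ (∀ i, 2 * k i ≤ m i) ∧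
      (∀ i, C.IsMotive (P i)) ∧ (∀ i j, i ≠ j → C.o (P i) (P j) = 0) ∧ p = ∑ i, P i ∧
      (∀ i l, l ≠ m i → ∀ ω, C.pb (P i) ω l = 0) ∧
      (∀ i, ThroughTwists K (m i - 2 * k i) (k i) (P i)) ∧
      ∀ i, ∀ W : Submodule ℚ (X.H [⋀^Fin (m i)]→ₗ[ℚ] ℚ), IsHodgeSubstructure X.per W →
        W ≤ C.img (P i) (m i) →
        (∀ s t : ℕ, s + t = m i → s ≤ k i ∨ t ≤ k i →
          complexify X.per W ⊓ typeForms X.T (m i) s t = ⊥) → W = ⊥ := by
  classical
  obtain ⟨e, he, hphi⟩ := CompleteOrthogonalIdempotents.lift_of_isNilpotent_ker (phi hp)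
    (ker_phi hp) (complete (K := K) hp) (fun i => ⟨_, rfl⟩)
  have hphi' : ∀ i : Ix X, ∀ x, C.pb (e i).1 x = C.pb (Fs hp K i.1 i.2).1 x := fun i =>
    (phi_eq hp).1 (congrFun hphi i)
  have hmot : ∀ i, C.IsMotive (e i).1 := fun i => ⟨(e i).2.1, congrArg Subtype.val (he.idem i)⟩
  refine ⟨Ix X, inferInstance, fun i => i.1, fun i => (i.1 : ℕ) / 2 - i.2, fun i => (e i).1,
    ?_, fun i => ?_, hmot, fun i j hij => congrArg Subtype.val (he.ortho hij), ?_,
    fun i l hl ω => ?_, fun i => ?_, fun i W hW hWP hWk => ?_⟩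
  · rintro ⟨m, j⟩ ⟨m', j'⟩ hm hk
    obtain rfl : m = m' := Fin.ext hm
    change (m : ℕ) / 2 - j = (m : ℕ) / 2 - j' at hk
    obtain rfl : j = j' := Fin.ext (by
      have h1 := j.2
      have h2 := j'.2
      omega)
    rfl
  · change 2 * ((i.1 : ℕ) / 2 - i.2) ≤ i.1
    omega
  · rw [← coe_sum, he.complete]
    rfl
  · rw [hphi']
    exact Fs_conc hp _ _ ω hl
  · obtain ⟨A, B, hA, hB, h1⟩ := through (hmot i) (Fs hp K i.1 i.2).2.1
      (fun ω => (hphi' i ω).symm)
    change ThroughTwists K ((i.1 : ℕ) - 2 * ((i.1 : ℕ) / 2 - i.2)) ((i.1 : ℕ) / 2 - i.2) (e i).1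
    rw [h1]
    exact Wt_left K (Wt_right K (facts (K := K) hp i.1 i.2).2.1 hB) hA
  · exact exact_level hp hG K i.2.2 (hphi' i) W hW hWP hWk

end

end Pool.Agent.N178.MU
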