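import Mathlib
import Pool.Agent.N178.MU.GHDefs

/-!
# Refined Chow–Künneth decompositions
-/

namespace Pool.Agent.N178.MU

open Module Pool.Agent.Y90 Pool.Agent.R915 Pool.Agent.N178.BL
open Pool.Agent.W546.GHC (IsHodgeSubstructure complexify typeForms)

/-- `M = ⊕ M_i`, `M_i = (X, P i)`, is a refined Chow–Künneth decomposition of the Chow motive
`M = (X, p)`: the cohomology of `M_i` is concentrated in degree `m i`, and `M_i` is a direct summand
of a finite sum of motives `h_(m i - 2 k i)(Y)(k i)`, `Y` abelian varieties, so its Hodge coniveau is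
at least `k i`; each nonzero sub-Hodge structure of its cohomology has the Hodge coniveau `k i`, not
more; and the pairs `(m i, k i)` are different. -/
structure IsRefined {C : ChowTheory} (K : Projectors C) {X : AV} (p : C.Co X X) {ι : Type}
    [Fintype ι] (m k : ι → ℕ) (P : ι → C.Co X X) : Prop where
  injective : ∀ i j, m i = m j → k i = k j → i = j
  motive : ∀ i, C.IsMotive (P i)
  orthogonal : ∀ i j, i ≠ j → C.o (P i) (P j) = 0
  sum : p = ∑ i, P i
  weight : ∀ i l, l ≠ m i → ∀ ω, C.pb (P i) ω l = 0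
  le_weight : ∀ i, 2 * k i ≤ m i
  summand : ∀ i, ThroughTwists K (m i - 2 * k i) (k i) (P i)
  coniveau : ∀ i, ∀ W : Submodule ℚ (X.H [⋀^Fin (m i)]→ₗ[ℚ] ℚ), IsHodgeSubstructure X.per W →
    W ≤ C.img (P i) (m i) → W ≠ ⊥ →
    ∃ s t : ℕ, s + t = m i ∧ (s ≤ k i ∨ t ≤ k i) ∧
      complexify X.per W ⊓ typeForms X.T (m i) s t ≠ ⊥

end Pool.Agent.N178.MU
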