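import Mathlib
import Pool.Agent.N178.MU.RefDefs
import Pool.Agent.N178.MU.Ref

/-!
# Refined Chow–Künneth decompositions: existence and Chow groups
-/

set_option linter.unusedSectionVars false

namespace Pool.Agent.N178.MU

open Module Pool.Agent.Y90 Pool.Agent.R915 Pool.Agent.N178.BL
open Pool.Agent.N178.HX (Cor GHC)

variable {C : ChowTheory} {X O : AV} {p : C.Co X X}

theorem exists_refined (K : Projectors C) (hG : GHC C.alg X) (hp : C.IsMotive p) :
    ∃ (ι : Type) (_ : Fintype ι) (m k : ι → ℕ) (P : ι → C.Co X X), IsRefined K p m k P := by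
  obtain ⟨ι, hι, m, k, P, h1, h2, h3, h4, h5, h6, h7, h8⟩ := refined hp hG K
  refine ⟨ι, hι, m, k, P, h1, h3, h4, h5, h6, h2, h7, fun i W hW hWP hne => ?_⟩
  by_contra h9
  push Not at h9
  exact hne (h8 i W hW hWP h9)

theorem refined_chow (K : Projectors C) (hO : finrank ℚ O.H = 0) {ι : Type} [Fintype ι]
    {m k : ι → ℕ} {P : ι → C.Co X X} (h : IsRefined K p m k P) (i : ι) (j : ℤ)
    (z : C.Co O X) (hz : C.IsDeg j z) (h0 : ∀ ω, C.pb z ω = 0)
    (hj : j < k i ∨ (m i : ℤ) ≤ k i + j ∨ ((m i : ℤ) ≤ k i + j + 1 ∧ (m i : ℤ) ≠ 2 * j + 1)) :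
    C.o (P i) z = 0 := by
  have h1 := h.summand i
  have h2 := h.le_weight i
  by_cases h3 : j < k i
  · exact Wt_neg K hO h1 hz h3
  · refine Wt_zero K hO h1 hz ?_ ?_ fun _ => h0
    · rcases hj with hj | hj | ⟨hj, -⟩ <;> omega
    · rcases hj with hj | hj | ⟨hj, hj'⟩ <;> omega

end Pool.Agent.N178.MU
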